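import Pool.Agent.L7h5.SP.Stm

/-!
# Project SP, third set of parts: the `q`-parts of the conjecture
-/

set_option autoImplicit false

namespace Pool.Agent.L7h5.SP
open NumberField Module IntermediateField
open Pool.Agent.K4H33.SK (Qbar GQ Fixes IsZeta AbelianRoot)
open Pool.Agent.K4H33.SK.Stmt (Sub Ideals nrm Cop IsArtin cnt cntAll)
open Pool.Agent.L7h10.RQ (IsAbelian StarkReal0)

/-- The `q`-part of the Stark–Tate conjecture: it holds up to a power prime to `q`. -/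
def StarkPart (ι : Qbar →+* ℂ) (F H : Sub) [NumberField F] (𝔣 : Ideals F)
    (art : Ideals F → GQ) (q : ℕ) : Prop :=
  ∃ n : ℤ, ¬ (q : ℤ) ∣ n ∧ StarkPow ι F H 𝔣 art n

/-- **GLUE.** The conjecture follows from its `q`-parts for all primes `q`.  (The exponents `n` with
`StarkPow n` form an ideal of `ℤ` (units `ε ^ a * ε' ^ b`, as in `BEZ`; the same `Z`), which is not
contained in `q ℤ` for any `q`, so it contains `1`.) -/
def S_GLUE : Prop :=
  ∀ (ι : Qbar →+* ℂ) (F H : Sub) [NumberField F] (𝔣 : Ideals F) (art : Ideals F → GQ), F ≤ H →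
    (∀ q : ℕ, q.Prime → StarkPart ι F H 𝔣 art q) → StarkReal0 ι F H 𝔣 art

/-- **LINQ.** As `LINES`, for the `q`-part, `q ≠ ℓ`: first replace the exponents for the finitely many
subfields used by their product `n` (prime to `q`), then the proof of `LINES` gives `StarkPow (ℓ n)`. -/
def S_LINQ : Prop :=
  ∀ (ι : Qbar →+* ℂ) (F H : Sub) [NumberField F] (𝔣 : Ideals F) (art : Ideals F → GQ) (ℓ q : ℕ),
    ℓ.Prime → q.Prime → ℓ ≠ q → IsAbelian F H → IsArtin F H 𝔣 art → NonCyclic F H ℓ →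
    (∀ H₀ : Sub, F ≤ H₀ → H₀ < H → StarkPart ι F H₀ 𝔣 art q) → StarkPart ι F H 𝔣 art q

/-- **SYLQ.** The `q`-part for all subextensions with cyclic Sylow subgroups for the primes other than
`q` implies the `q`-part for `H`.  (Induction over the degree as in `SYL`.) -/
def S_SYLQ : Prop :=
  ∀ (ι : Qbar →+* ℂ) (F H : Sub) [NumberField F] (𝔣 : Ideals F) (art : Ideals F → GQ) (q : ℕ),
    q.Prime → IsAbelian F H → IsArtin F H 𝔣 art →
    (∀ H₀ : Sub, F ≤ H₀ → H₀ ≤ H → (∀ ℓ : ℕ, ℓ.Prime → NonCyclic F H₀ ℓ → ℓ = q) →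
      StarkPart ι F H₀ 𝔣 art q) → StarkPart ι F H 𝔣 art q

/-- **CHEBF.** A finite set of primes which generates (`Pool.Agent.L7h25.SP.Cheb`: every automorphism
fixing `F` agrees on `H'` with `art P` for some prime `P`; take representatives, `S_REPS`). -/
def S_CHEBF : Prop :=
  ∀ (F H' : Sub) [NumberField F] (𝔣 : Ideals F) (art : Ideals F → GQ), IsAbelian F H' → 𝔣 ≠ ⊥ →
    IsArtin F H' 𝔣 art → ∃ Ps : Finset (Ideals F), Generate F H' 𝔣 art ↑Ps ∧
      ∃ P ∈ Ps, ∃ Q ∈ Ps, ∀ i j : ℕ, 0 < i → 0 < j → nrm F P ^ i ≠ nrm F Q ^ j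

end Pool.Agent.L7h5.SP
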