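import Pool.Agent.L7h5.SP.Fin
import Pool.Agent.L7h40.SP.REPS
import Pool.Agent.L7h40.SP.TAU
import Pool.Agent.L7h40.SP.REL
import Pool.Agent.L7h79.SP.Sum
import Pool.Agent.L7h79.SP.Bez
import Pool.Agent.L7h79.SP.Lines
import Pool.Agent.L7h93.SP.Cont
import Pool.Agent.L7h77.SP.Zz
import Pool.Agent.L7h61.SP.Deda
import Pool.Agent.L7h61.SP.Dedb
import Pool.Agent.L7h61.SP.Cauchy
import Pool.Agent.L7h25.SP.Two
import Pool.Agent.L7h25.SP.Cheb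

/-! # Project SP: assembly -/

set_option autoImplicit false

namespace Pool.Agent.L7h5.SP
open NumberField Module IntermediateField
open Pool.Agent.K4H33.SK (Qbar GQ Fixes IsZeta AbelianRoot)
open Pool.Agent.K4H33.SK.Stmt (Sub Ideals nrm Cop IsArtin cnt cntAll)
open Pool.Agent.L7h10.RQ (IsAbelian StarkReal0)

theorem sMain : S_MAIN := s_MAIN Pool.Agent.L7h40.SP.s_REPS Pool.Agent.L7h79.SP.s_SUM
  Pool.Agent.L7h61.SP.s_DEDA Pool.Agent.L7h61.SP.s_DEDB Pool.Agent.L7h40.SP.s_TAU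
  Pool.Agent.L7h40.SP.s_REL (Pool.Agent.L7h77.SP.s_ZZ Pool.Agent.L7h93.SP.s_CONT)

theorem sOdd : S_ODD0 := s_ODD0 Pool.Agent.L7h40.SP.s_REPS Pool.Agent.L7h79.SP.s_SUM
  Pool.Agent.L7h61.SP.s_DEDA Pool.Agent.L7h61.SP.s_DEDB Pool.Agent.L7h40.SP.s_TAU
  Pool.Agent.L7h40.SP.s_REL (Pool.Agent.L7h77.SP.s_ZZ Pool.Agent.L7h93.SP.s_CONT)

theorem sLines : S_LINES := Pool.Agent.L7h79.SP.s_LINES Pool.Agent.L7h79.SP.s_SUM

theorem sSyl : S_SYL := Pool.Agent.L7h79.SP.s_SYL sLines Pool.Agent.L7h79.SP.s_BEZ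

/-- Two prime ideals in `Ps` have multiplicatively independent norms. -/
def TwoIndependent (F : Sub) [NumberField F] (Ps : Set (Ideals F)) : Prop :=
  ∃ P ∈ Ps, ∃ Q ∈ Ps, ∀ i j : ℕ, 0 < i → 0 < j → nrm F P ^ i ≠ nrm F Q ^ j

/-- Extensions of even degree: if `H'` is an extension of `H` of even degree, abelian over `F` and real
for `ι`, and the conjecture holds for `H'` and `S ∪ {P}` for all `P` in `Ps`, then it holds for `H` and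
`S`. -/
def EvenStep (ι : Qbar →+* ℂ) (F : Sub) [NumberField F] : Prop :=
  ∀ (H H' : Sub) (𝔣 : Ideals F) (art : Ideals F → GQ) (Ps : Set (Ideals F)),
    IsAbelian F H' → F ≤ H → H ≤ H' → 2 * finrank ℚ H ∣ finrank ℚ H' →
    (∀ x ∈ H', (ι x).im = 0) → 𝔣 ≠ ⊥ → 𝔣 ≠ ⊤ → IsArtin F H' 𝔣 art → Generate F H' 𝔣 art Ps →
    TwoIndependent F Ps → (∀ P ∈ Ps, StarkReal0 ι F H' (𝔣 * P) art) → StarkReal0 ι F H 𝔣 art

/-- Subextensions of odd index: if the conjecture holds for `H` and `S ∪ {P}` for all `P` in `Ps`, and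
for a subextension `H₀` of odd index and `S`, then it holds for `H` and `S`. -/
def OddStep (ι : Qbar →+* ℂ) (F : Sub) [NumberField F] : Prop :=
  ∀ (H₀ H : Sub) (𝔣 : Ideals F) (art : Ideals F → GQ) (Ps : Set (Ideals F)),
    IsAbelian F H → F ≤ H₀ → H₀ ≤ H → (∃ m : ℕ, finrank ℚ H = (2 * m + 1) * finrank ℚ H₀) →
    (∀ x ∈ H, (ι x).im = 0) → 𝔣 ≠ ⊥ → 𝔣 ≠ ⊤ → IsArtin F H 𝔣 art → Generate F H 𝔣 art Ps →
    TwoIndependent F Ps → (∀ P ∈ Ps, StarkReal0 ι F H (𝔣 * P) art) → StarkReal0 ι F H₀ 𝔣 art →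
    StarkReal0 ι F H 𝔣 art

theorem evenStep (ι : Qbar →+* ℂ) (F : Sub) [NumberField F] (hF : finrank ℚ F = 2) :
    EvenStep ι F := fun H H' 𝔣 art Ps => sMain ι F H H' 𝔣 art Ps hF

theorem oddStep (ι : Qbar →+* ℂ) (F : Sub) [NumberField F] (hF : finrank ℚ F = 2) :
    OddStep ι F := fun H₀ H 𝔣 art Ps => sOdd ι F H₀ H 𝔣 art Ps hF

theorem sIterTwo {ι : Qbar →+* ℂ} {F : Sub} [NumberField F] (hF : finrank ℚ F = 2) {N : ℕ}
    (h : Conj ι F (fun _ 𝔣 => AboveTwo F 𝔣 ∧ ManyPrimes F N 𝔣)) :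
    Conj ι F (fun _ 𝔣 => AboveTwo F 𝔣) :=
  iter_two sMain Pool.Agent.L7h25.SP.s_CHEB Pool.Agent.L7h25.SP.s_TWO hF h

theorem sIterAll {ι : Qbar →+* ℂ} {F : Sub} [NumberField F] (hF : finrank ℚ F = 2) {N : ℕ}
    (h : Conj ι F (fun _ 𝔣 => ManyPrimes F N 𝔣))
    (h' : Conj ι F (fun H 𝔣 => TwoPower F H ∧ ¬ AboveTwo F 𝔣)) :
    Conj ι F (fun _ _ => True) :=
  iter_all sMain sOdd Pool.Agent.L7h25.SP.s_CHEB Pool.Agent.L7h25.SP.s_TWO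
    Pool.Agent.L7h61.SP.s_CAUCHY hF h h'

theorem sSylAll {ι : Qbar →+* ℂ} {F : Sub} [NumberField F]
    (Y : Ideals F → Prop) (h : Conj ι F (fun H 𝔣 => AtMostOne F H ∧ Y 𝔣)) :
    Conj ι F (fun _ 𝔣 => Y 𝔣) := syl_all sSyl Y h

end Pool.Agent.L7h5.SP
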