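import Pool.Agent.L7h5.SP.MainC
import Pool.Agent.L7h10.RQ.MainB

/-! # Project SP: the conjecture for all fields and sets with many primes -/

set_option autoImplicit false
set_option linter.all false

namespace Pool.Agent.L7h5.SP
open NumberField Module IntermediateField
open Pool.Agent.K4H33.SK (Qbar GQ Fixes IsZeta AbelianRoot fixes_iff mem_of_fixed Fixes.mul
  Fixes.inv Fixes.mono Fixes.one comm_of_root isZeta_unique isZeta_deriv cnt_congr fixes_sup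
  fixes_adjoin conj_root exists_conj)
open Pool.Agent.K4H33.SK.Stmt (Sub Ideals nrm Cop IsArtin cnt cntAll Above)
open Pool.Agent.L7h10.RQ (IsAbelian StarkReal0 Unramified UnramifiedQ Inertia s_art s_uni'
  unramified_cyc artin_restrict)

/-- The Galois group of `H/F` has at most one non-cyclic Sylow subgroup. -/
def AtMostOne (F H : Sub) : Prop :=
  ∀ ℓ ℓ' : ℕ, ℓ.Prime → ℓ'.Prime → NonCyclic F H ℓ → NonCyclic F H ℓ' → ℓ = ℓ'

/-- All primes of `F` above `2` divide `𝔣`. -/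
def AboveTwo (F : Sub) [NumberField F] (𝔣 : Ideals F) : Prop :=
  ∀ P : Ideals F, P.IsPrime → (2 : 𝓞 F) ∈ P → 𝔣 ≤ P

/-- At least `N` prime ideals divide `𝔣`. -/
def ManyPrimes (F : Sub) [NumberField F] (N : ℕ) (𝔣 : Ideals F) : Prop :=
  ∃ s : Finset (Ideals F), s.card = N ∧ ∀ P ∈ s, P.IsPrime ∧ 𝔣 ≤ P

/-- The degree of `H/F` is a power of two. -/
def TwoPower (F H : Sub) : Prop := ∃ k : ℕ, finrank ℚ H = 2 ^ k * finrank ℚ F

/-- The Stark–Tate conjecture over `F` for all pairs `(H, S)` with the property `X`: `H/F` is abelian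
and real above the real place `ι` of `F`, `S` consists of the two real places and the prime ideals
dividing `𝔣`, and `H/F` is unramified outside `S`. -/
def Conj (ι : Qbar →+* ℂ) (F : Sub) [NumberField F] (X : Sub → Ideals F → Prop) : Prop :=
  ∀ (H : Sub) (𝔣 : Ideals F) (art : Ideals F → GQ), IsAbelian F H → (∀ x ∈ H, (ι x).im = 0) →
    Unramified F H 𝔣 → 𝔣 ≠ ⊥ → 𝔣 ≠ ⊤ → IsArtin F H 𝔣 art → X H 𝔣 → StarkReal0 ι F H 𝔣 art

lemma isAbelian_of_le {F H₀ H : Sub} (h : IsAbelian F H) (h1 : F ≤ H₀) (h2 : H₀ ≤ H) :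
    IsAbelian F H₀ := by
  haveI := h.fin
  refine ⟨h1, ?_, ?_, ?_⟩
  · exact FiniteDimensional.of_injective (IntermediateField.inclusion h2).toLinearMap
        (IntermediateField.inclusion h2).injective
  · intro σ hσ x hx
    apply mem_of_fixed
    intro τ hτ
    rw [h.comm τ σ (hτ.mono h1) hσ x (h2 hx), hτ x hx]
  · exact fun σ τ hσ hτ x hx => h.comm σ τ hσ hτ x (h2 hx)

lemma unramified_mono {F H₀ H : Sub} [NumberField F] {𝔣 : Ideals F} (h : Unramified F H 𝔣)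
    (h2 : H₀ ≤ H) : Unramified F H₀ 𝔣 :=
  fun 𝔓 h1 h3 σ h4 h5 => (h 𝔓 h1 h3 σ h4 h5).mono h2

/-- change of the Artin map -/
lemma change_art {ι : Qbar →+* ℂ} {F H : Sub} [NumberField F] {𝔣 : Ideals F}
    {art art' : Ideals F → GQ} (hab : IsAbelian F H) (hu : Unramified F H 𝔣) (h1 : 𝔣 ≠ ⊤)
    (ha : IsArtin F H 𝔣 art) (ha' : IsArtin F H 𝔣 art') (h : StarkReal0 ι F H 𝔣 art') :
    StarkReal0 ι F H 𝔣 art := by
  have e := s_uni' F H 𝔣 𝔣 hab hu h1 h1 (fun _ h => h) art art' ha ha'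
  obtain ⟨Z, ε, g1, g2, g3, g4, g5⟩ := h
  refine ⟨Z, ε, g1, g2, g3, ?_, g5⟩
  intro σ hσ
  have h6 : cnt F H 𝔣 art σ = cnt F H 𝔣 art' σ := by
    funext n
    unfold cnt
    refine Nat.card_congr (Equiv.subtypeEquivRight fun 𝔟 => ?_)
    refine and_congr_right fun _ => and_congr_right fun hc => forall₂_congr fun x hx => ?_
    rw [e 𝔟 hc x hx]
  rw [h6]
  exact g4 σ hσ

lemma unramified_mul {F H : Sub} [NumberField F] {𝔣 P : Ideals F} (h : Unramified F H 𝔣) :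
    Unramified F H (𝔣 * P) :=
  fun 𝔓 h1 h3 σ h4 h5 => h 𝔓 h1 (fun 𝔭 h𝔭 => (IsCoprime.mul_right_iff.1 (h3 𝔭 h𝔭)).1) σ h4 h5

lemma unramified_two {F H : Sub} [NumberField F] {𝔣 : Ideals F} (h : Unramified F H 𝔣)
    (h2 : AboveTwo F 𝔣) {k : ℕ} {ζ : Qbar}
    (hζ : IsPrimitiveRoot ζ (2 ^ k)) : Unramified F (H ⊔ ℚ⟮ζ + ζ⁻¹⟯) 𝔣 := by
  intro 𝔓 h𝔓 hc σ hσ hi
  rw [fixes_sup]
  refine ⟨h 𝔓 h𝔓 hc σ hσ hi, ?_⟩
  apply fixes_adjoin
  have key : σ ζ = ζ := by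
    rcases Nat.eq_zero_or_pos k with rfl | hk
    · rw [pow_zero] at hζ
      rw [IsPrimitiveRoot.one_right_iff.1 hζ, map_one]
    · have hf : 2 ≤ 2 ^ k := by
        calc 2 = 2 ^ 1 := by norm_num
          _ ≤ 2 ^ k := Nat.pow_le_pow_right (by norm_num) hk
      have hnot : ((2 ^ k : ℕ) : 𝓞 Qbar) ∉ 𝔓 := by
        intro hmem
        rw [Nat.cast_pow] at hmem
        have h3 := h𝔓.mem_of_pow_mem _ hmem
        have hp : (𝔓.under (𝓞 F)).IsPrime := inferInstance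
        have h4 := h2 (𝔓.under (𝓞 F)) hp (by
          rw [Ideal.mem_comap, map_ofNat]
          exact_mod_cast h3)
        have h5 := hc (𝔓.under (𝓞 F)) ⟨h𝔓, ⟨rfl⟩⟩
        apply hp.ne_top
        rw [Ideal.eq_top_iff_one]
        obtain ⟨i, hi, j, hj, hij⟩ := Ideal.isCoprime_iff_exists.1 h5
        rw [← hij]
        exact (𝔓.under (𝓞 F)).add_mem hi (h4 hj)
      have h6 := unramified_cyc hf hζ 𝔓 h𝔓 hnot σ hi
      exact h6 ζ (mem_adjoin_simple_self ℚ ζ)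
  rw [map_add, map_inv₀, key]

lemma real_two {ι : Qbar →+* ℂ} {H : Sub} (hreal : ∀ x ∈ H, (ι x).im = 0) {k : ℕ} {ζ : Qbar}
    (hζ : IsPrimitiveRoot ζ (2 ^ k)) : ∀ x ∈ H ⊔ ℚ⟮ζ + ζ⁻¹⟯, (ι x).im = 0 := by
  obtain ⟨c, hc⟩ := exists_conj ι
  have hcH : Fixes H c := by
    intro x hx
    apply ι.injective
    rw [hc x]
    exact Complex.conj_eq_iff_im.2 (hreal x hx)
  have hcζ : c ζ = ζ⁻¹ := conj_root hc (by positivity : (2 : ℕ) ^ k ≠ 0) hζ.pow_eq_one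
  have hcT : Fixes ℚ⟮ζ + ζ⁻¹⟯ c := by
    apply fixes_adjoin
    rw [map_add, map_inv₀, hcζ, inv_inv, add_comm]
  have hcs : Fixes (H ⊔ ℚ⟮ζ + ζ⁻¹⟯) c := fixes_sup.2 ⟨hcH, hcT⟩
  intro x hx
  have := hc x
  rw [hcs x hx] at this
  exact Complex.conj_eq_iff_im.1 this.symm

lemma artin_mul {F H : Sub} [NumberField F] {𝔣 P : Ideals F} {art : Ideals F → GQ}
    (hart : IsArtin F H 𝔣 art) : IsArtin F H (𝔣 * P) art :=
  ⟨fun 𝔟 hb => hart.fix 𝔟 (IsCoprime.mul_right_iff.1 hb).1,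
      fun 𝔟 𝔠 hb hc => hart.mul 𝔟 𝔠 (IsCoprime.mul_right_iff.1 hb).1
        (IsCoprime.mul_right_iff.1 hc).1,
      fun 𝔭 hp hc => hart.frob 𝔭 hp (IsCoprime.mul_right_iff.1 hc).1⟩

lemma not_le_of_cop {F : Sub} [NumberField F] {𝔣 R : Ideals F} (hR : R.IsPrime)
    (hc : Cop F R 𝔣) : ¬ 𝔣 ≤ R := by
  intro h3
  apply hR.ne_top
  rw [Ideal.eq_top_iff_one]
  obtain ⟨i, hi, j, hj, hij⟩ := Ideal.isCoprime_iff_exists.1 hc
  rw [← hij]
  exact R.add_mem hi (h3 hj)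

lemma many_mul {F : Sub} [NumberField F] {𝔣 R : Ideals F} {N : ℕ} (h : ManyPrimes F N 𝔣)
    (hR : R.IsPrime) (hc : Cop F R 𝔣) : ManyPrimes F (N + 1) (𝔣 * R) := by
  classical
  obtain ⟨s, hsc, hs⟩ := h
  have hRs : R ∉ s := fun hmem => not_le_of_cop hR hc (hs R hmem).2
  refine ⟨insert R s, by rw [Finset.card_insert_of_notMem hRs, hsc], ?_⟩
  intro P hP
  rcases Finset.mem_insert.1 hP with rfl | hP
  · exact ⟨hR, Ideal.mul_le_right⟩
  · exact ⟨(hs P hP).1, Ideal.mul_le_left.trans (hs P hP).2⟩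

lemma mul_ne_top {F : Sub} [NumberField F] {𝔣 R : Ideals F} (h1 : 𝔣 ≠ ⊤) : 𝔣 * R ≠ ⊤ := by
  intro htop
  apply h1
  rw [eq_top_iff, ← htop]
  exact Ideal.mul_le_left

/-- one more prime, if the primes above two belong to `S` -/
theorem step_two (hMAIN : S_MAIN) (hCHEB : S_CHEB) (hTWO : S_TWO) {ι : Qbar →+* ℂ} {F : Sub}
    [NumberField F] (hF : finrank ℚ F = 2) {N : ℕ}
    (h : Conj ι F (fun _ 𝔣 => AboveTwo F 𝔣 ∧ ManyPrimes F (N + 1) 𝔣)) :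
    Conj ι F (fun _ 𝔣 => AboveTwo F 𝔣 ∧ ManyPrimes F N 𝔣) := by
  intro H 𝔣 art hab hreal hu h0 h1 hart ⟨h2, hs⟩
  obtain ⟨k, ζ, hζ, hab', hdeg⟩ := hTWO F H hab
  obtain ⟨art', hart'⟩ := s_art F (H ⊔ ℚ⟮ζ + ζ⁻¹⟯) 𝔣 hab' h1
  have hle : H ≤ H ⊔ ℚ⟮ζ + ζ⁻¹⟯ := le_sup_left
  refine change_art hab hu h1 hart (artin_restrict hart' hle) ?_
  obtain ⟨hg, P, Q, hP, hQ, hPQ⟩ := hCHEB F _ 𝔣 art' hab' h0 hart' ∅ Set.finite_empty
  refine hMAIN ι F H _ 𝔣 art' _ hF hab' hab.le hle hdeg (real_two hreal hζ) h0 h1 hart' hg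
    ⟨P, hP, Q, hQ, hPQ⟩ ?_
  rintro R ⟨hR1, hR2, hR3, -⟩
  exact h _ (𝔣 * R) art' hab' (real_two hreal hζ) (unramified_mul (unramified_two hu h2 hζ))
    (mul_ne_zero h0 hR2) (mul_ne_top h1) (artin_mul hart')
    ⟨fun P hP h2P => Ideal.mul_le_left.trans (h2 P hP h2P), many_mul hs hR1 hR3⟩

theorem iter_two (hMAIN : S_MAIN) (hCHEB : S_CHEB) (hTWO : S_TWO) {ι : Qbar →+* ℂ} {F : Sub}
    [NumberField F] (hF : finrank ℚ F = 2) {N : ℕ}
    (h : Conj ι F (fun _ 𝔣 => AboveTwo F 𝔣 ∧ ManyPrimes F N 𝔣)) :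
    Conj ι F (fun _ 𝔣 => AboveTwo F 𝔣) := by
  induction N with
  | zero =>
    intro H 𝔣 art hab hreal hu h0 h1 hart h2
    exact h H 𝔣 art hab hreal hu h0 h1 hart ⟨h2, ∅, rfl, by simp⟩
  | succ n ih => exact ih (step_two hMAIN hCHEB hTWO hF h)

/-- an odd prime divisor -/
lemma exists_odd_prime {d : ℕ} (hd : d ≠ 0) (h : ∀ k, d ≠ 2 ^ k) :
    ∃ ℓ : ℕ, ℓ.Prime ∧ ℓ ≠ 2 ∧ ℓ ∣ d := by
  by_contra hcon
  push Not at hcon
  have h1 : d = 2 ^ d.primeFactorsList.length := by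
    refine Nat.eq_prime_pow_of_unique_prime_dvd hd ?_
    intro q hq hqd
    by_contra hne
    exact hcon q hq hne hqd
  exact h _ h1

/-- one more prime, all sets -/
theorem step_all (hMAIN : S_MAIN) (hODD : S_ODD0) (hCHEB : S_CHEB) (hTWO : S_TWO)
    (hCAU : S_CAUCHY) {ι : Qbar →+* ℂ} {F : Sub} [NumberField F] (hF : finrank ℚ F = 2) {N : ℕ}
    (h : Conj ι F (fun _ 𝔣 => ManyPrimes F (N + 1) 𝔣))
    (h' : Conj ι F (fun H 𝔣 => TwoPower F H ∧ ¬ AboveTwo F 𝔣)) :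
    Conj ι F (fun _ 𝔣 => ManyPrimes F N 𝔣) := by
  have key : ∀ n : ℕ, ∀ (H : Sub) (𝔣 : Ideals F) (art : Ideals F → GQ), finrank ℚ H = n →
      IsAbelian F H → (∀ x ∈ H, (ι x).im = 0) → Unramified F H 𝔣 → 𝔣 ≠ ⊥ → 𝔣 ≠ ⊤ →
      IsArtin F H 𝔣 art → ManyPrimes F N 𝔣 → StarkReal0 ι F H 𝔣 art := by
    intro n
    induction n using Nat.strong_induction_on with
    | _ n ih =>
      intro H 𝔣 art hn hab hreal hu h0 h1 hart hs
      by_cases h2 : AboveTwo F 𝔣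
      · refine step_two hMAIN hCHEB hTWO hF (N := N) ?_ H 𝔣 art hab hreal hu h0 h1 hart ⟨h2, hs⟩
        intro H 𝔣 art hab hreal hu h0 h1 hart ⟨h2, hs⟩
        exact h H 𝔣 art hab hreal hu h0 h1 hart hs
      by_cases h3 : TwoPower F H
      · exact h' H 𝔣 art hab hreal hu h0 h1 hart ⟨h3, h2⟩
      haveI := hab.fin
      have hdvd : finrank ℚ F ∣ finrank ℚ H := by
        exact IntermediateField.finrank_dvd_of_le_right hab.le
      obtain ⟨d, hd⟩ := hdvd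
      have hH0 : 0 < finrank ℚ H := Module.finrank_pos
      have hd0 : d ≠ 0 := by
        rintro rfl
        rw [mul_zero] at hd
        omega
      obtain ⟨ℓ, hℓ, hℓ2, e, he⟩ := exists_odd_prime hd0 (fun k hk => h3 ⟨k, by rw [hd, hk, mul_comm]⟩)
      obtain ⟨H₁, g1, g2, g3⟩ := hCAU F H ℓ hab hℓ ⟨e, by rw [hd, he]; ring⟩
      have hab1 := isAbelian_of_le hab g1 g2
      have hlt : finrank ℚ H₁ < n := by
        rw [← hn, ← g3]
        have h5 : 0 < finrank ℚ H₁ := by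
          haveI := hab1.fin
          exact Module.finrank_pos
        nlinarith [hℓ.two_le]
      have hS1 := ih _ hlt H₁ 𝔣 art rfl hab1 (fun x hx => hreal x (g2 hx)) (unramified_mono hu g2)
        h0 h1 (artin_restrict hart g2) hs
      obtain ⟨hg, P, Q, hP, hQ, hPQ⟩ := hCHEB F _ 𝔣 art hab h0 hart ∅ Set.finite_empty
      obtain ⟨m, hm⟩ := hℓ.odd_of_ne_two hℓ2
      refine hODD ι F H₁ H 𝔣 art _ hF hab g1 g2 ⟨m, by rw [← hm, g3]⟩ hreal h0 h1 hart hg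
        ⟨P, hP, Q, hQ, hPQ⟩ ?_ hS1
      rintro R ⟨hR1, hR2, hR3, -⟩
      exact h _ (𝔣 * R) art hab hreal (unramified_mul hu) (mul_ne_zero h0 hR2) (mul_ne_top h1)
        (artin_mul hart) (many_mul hs hR1 hR3)
  intro H 𝔣 art hab hreal hu h0 h1 hart hs
  exact key _ H 𝔣 art rfl hab hreal hu h0 h1 hart hs

theorem iter_all (hMAIN : S_MAIN) (hODD : S_ODD0) (hCHEB : S_CHEB) (hTWO : S_TWO)
    (hCAU : S_CAUCHY) {ι : Qbar →+* ℂ} {F : Sub} [NumberField F] (hF : finrank ℚ F = 2) {N : ℕ}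
    (h : Conj ι F (fun _ 𝔣 => ManyPrimes F N 𝔣))
    (h' : Conj ι F (fun H 𝔣 => TwoPower F H ∧ ¬ AboveTwo F 𝔣)) :
    Conj ι F (fun _ _ => True) := by
  induction N with
  | zero =>
    intro H 𝔣 art hab hreal hu h0 h1 hart h2
    exact h H 𝔣 art hab hreal hu h0 h1 hart ⟨∅, rfl, by simp⟩
  | succ n ih => exact ih (step_all hMAIN hODD hCHEB hTWO hCAU hF h h')

/-- at most one non-cyclic Sylow subgroup, for the same set of primes -/
theorem syl_all (hSYL : S_SYL) {ι : Qbar →+* ℂ} {F : Sub} [NumberField F]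
    (Y : Ideals F → Prop) (h : Conj ι F (fun H 𝔣 => AtMostOne F H ∧ Y 𝔣)) :
    Conj ι F (fun _ 𝔣 => Y 𝔣) := by
  intro H 𝔣 art hab hreal hu h0 h1 hart hY
  refine hSYL ι F H 𝔣 art hab hart ?_
  intro H₀ hFH hH hX
  exact h H₀ 𝔣 art (isAbelian_of_le hab hFH hH) (fun x hx => hreal x (hH hx))
    (unramified_mono hu hH) h0 h1 (artin_restrict hart hH) ⟨hX, hY⟩

end Pool.Agent.L7h5.SP
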