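import Pool.Agent.L7h5.SP.StmQ

/-! # Project SP: statements for general base fields -/

set_option autoImplicit false

namespace Pool.Agent.L7h5.SP.GB
open NumberField Module IntermediateField
open Pool.Agent.L7h5.SP
open Pool.Agent.K4H33.SK (Qbar GQ)
open Pool.Agent.K4H33.SK.Stmt (Sub Ideals nrm IsArtin)
open Pool.Agent.L7h10.RQ (IsAbelian StarkReal0 Unramified)

/-- The degree of `H/F` is a power of `q`. -/
def PrimePower (F H : Sub) (q : ℕ) : Prop := ∃ k : ℕ, finrank ℚ H = q ^ k * finrank ℚ F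

/-- `F` has a real place other than `ι`. -/
def SecondReal (ι : Qbar →+* ℂ) (F : Sub) : Prop :=
  ∃ w : Qbar →+* ℂ, (∃ x ∈ F, w x ≠ ι x) ∧ ∀ x ∈ F, (w x).im = 0

/-- Two prime ideals in `Ps` have multiplicatively independent norms. -/
def Independent (F : Sub) [NumberField F] (Ps : Set (Ideals F)) : Prop :=
  ∃ P ∈ Ps, ∃ Q ∈ Ps, ∀ i j : ℕ, 0 < i → 0 < j → nrm F P ^ i ≠ nrm F Q ^ j

/-- Subextensions: if the conjecture holds for `H` and `S ∪ {P}` for all `P` in `Ps`, and for a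
subextension `H₀` of index `m` and `S`, then it holds for `H` and `S` up to the power `m`. -/
def IndexStep (ι : Qbar →+* ℂ) (F : Sub) [NumberField F] : Prop :=
  ∀ (H₀ H : Sub) (𝔣 : Ideals F) (art : Ideals F → GQ) (Ps : Set (Ideals F)) (m : ℕ),
    IsAbelian F H → F ≤ H₀ → H₀ ≤ H → finrank ℚ H = m * finrank ℚ H₀ → 𝔣 ≠ ⊤ →
    IsArtin F H 𝔣 art → Generate F H 𝔣 art Ps → Independent F Ps →
    (∀ P ∈ Ps, StarkReal0 ι F H (𝔣 * P) art) → StarkReal0 ι F H₀ 𝔣 art → StarkPow ι F H 𝔣 art m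

/-- Extensions of even degree: if the conjecture holds for `H'` of even degree over `H`, abelian over
`F`, and `S ∪ {P}` for all `P` in `Ps`, and for `F` itself and `S`, then it holds for `H` and `S`. -/
def EvenDegreeStep (ι : Qbar →+* ℂ) (F : Sub) [NumberField F] : Prop :=
  ∀ (H H' : Sub) (𝔣 : Ideals F) (art : Ideals F → GQ) (Ps : Set (Ideals F)),
    IsAbelian F H' → F ≤ H → H ≤ H' → 2 * finrank ℚ H ∣ finrank ℚ H' → 𝔣 ≠ ⊤ →
    IsArtin F H' 𝔣 art → Generate F H' 𝔣 art Ps → Independent F Ps →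
    (∀ P ∈ Ps, StarkReal0 ι F H' (𝔣 * P) art) → StarkReal0 ι F F 𝔣 art → StarkReal0 ι F H 𝔣 art

end Pool.Agent.L7h5.SP.GB
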