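import Pool.Agent.L7h5.SP.MainG
import Pool.Agent.L7h5.SP.StmG

/-! # Project SP: the conjecture over all base fields -/

set_option autoImplicit false
set_option linter.all false

namespace Pool.Agent.L7h5.SP.GB
open NumberField Module IntermediateField
open Pool.Agent.L7h5.SP
open Pool.Agent.L7h5.SP.PW
open Pool.Agent.K4H33.SK (Qbar GQ Fixes IsZeta AbelianRoot cnt_congr)
open Pool.Agent.K4H33.SK.Stmt (Sub Ideals nrm Cop IsArtin cnt cntAll Above)
open Pool.Agent.L7h10.RQ (IsAbelian StarkReal0 Unramified s_art s_uni' artin_restrict)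

lemma exists_prime_ne {q d : ℕ} (hd : d ≠ 0) (h : ∀ k, d ≠ q ^ k) :
    ∃ ℓ : ℕ, ℓ.Prime ∧ ℓ ≠ q ∧ ℓ ∣ d := by
  by_contra hcon
  push Not at hcon
  have h1 : d = q ^ d.primeFactorsList.length := by
    refine Nat.eq_prime_pow_of_unique_prime_dvd hd ?_
    intro p hp hpd
    by_contra hne
    exact hcon p hp hne hpd
  exact h _ h1

lemma not_dvd_prime {q ℓ : ℕ} (hq : q.Prime) (hℓ : ℓ.Prime) (h : ℓ ≠ q) : ¬ (q : ℤ) ∣ (ℓ : ℤ) := by
  intro h1
  have h2 : q ∣ ℓ := by exact_mod_cast h1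
  exact h ((Nat.prime_dvd_prime_iff_eq hq hℓ).1 h2).symm

section
variable {ι : Qbar →+* ℂ} {F : Sub} [NumberField F]

theorem indexStep (hSM : S_SUMM) : IndexStep ι F := by
  intro H₀ H 𝔣 art Ps m hab hF hH hdeg h1 hart hgen hPQ hS hS0
  have := index_pow hSM one_ne_zero hab hF hH h1 hart hgen hPQ
    (fun P hP => PW.real_iff.1 (hS P hP)) (PW.real_iff.1 hS0) hdeg
  rwa [one_mul] at this

theorem evenDegreeStep (hSM : S_SUMM) (hw : SecondReal ι F) : EvenDegreeStep ι F := by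
  intro H H' 𝔣 art Ps hab hF hH hdeg h1 hart hgen hPQ hS hS0
  exact PW.real_iff.2 (even_gen hSM one_ne_zero hab hF hH hdeg h1 hart hgen hPQ
    (fun P hP => PW.real_iff.1 (hS P hP)) hw one_ne_zero (PW.real_iff.1 hS0))

/-- a descent along a chain of subextensions of prime index -/
theorem descend (hSM : S_SUMM) {q : ℕ} (hq : q.Prime) (Y : Ideals F → Prop)
    (hY : ∀ 𝔣 P : Ideals F, P.IsPrime → P ≠ ⊥ → Cop F P 𝔣 → Y 𝔣 → ∀ (H : Sub) (art : Ideals F → GQ),
      IsAbelian F H → (∀ x ∈ H, (ι x).im = 0) → Unramified F H 𝔣 → 𝔣 ≠ ⊥ → 𝔣 ≠ ⊤ →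
      IsArtin F H 𝔣 art → StarkPart ι F H (𝔣 * P) art q)
    (h' : ∀ (H : Sub) (𝔣 : Ideals F) (art : Ideals F → GQ), IsAbelian F H →
      (∀ x ∈ H, (ι x).im = 0) → Unramified F H 𝔣 → 𝔣 ≠ ⊥ → 𝔣 ≠ ⊤ → IsArtin F H 𝔣 art → Y 𝔣 →
      PrimePower F H q → StarkPart ι F H 𝔣 art q) :
    ConjPart ι F q (fun _ 𝔣 => Y 𝔣) := by
  have key : ∀ n : ℕ, ∀ (H : Sub) (𝔣 : Ideals F) (art : Ideals F → GQ), finrank ℚ H = n →
      IsAbelian F H → (∀ x ∈ H, (ι x).im = 0) → Unramified F H 𝔣 → 𝔣 ≠ ⊥ → 𝔣 ≠ ⊤ →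
      IsArtin F H 𝔣 art → Y 𝔣 → StarkPart ι F H 𝔣 art q := by
    intro n
    induction n using Nat.strong_induction_on with
    | _ n ih =>
      intro H 𝔣 art hn hab hreal hu h0 h1 hart hs
      by_cases h3 : PrimePower F H q
      · exact h' H 𝔣 art hab hreal hu h0 h1 hart hs h3
      haveI := hab.fin
      have hdvd : finrank ℚ F ∣ finrank ℚ H := by
        exact IntermediateField.finrank_dvd_of_le_right hab.le
      obtain ⟨d, hd⟩ := hdvd
      have hH0 : 0 < finrank ℚ H := Module.finrank_pos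
      have hd0 : d ≠ 0 := by
        rintro rfl
        rw [mul_zero] at hd
        omega
      obtain ⟨ℓ, hℓ, hℓ2, e, he⟩ := exists_prime_ne hd0
        (fun k hk => h3 ⟨k, by rw [hd, hk, mul_comm]⟩)
      obtain ⟨H₁, g1, g2, g3⟩ := Pool.Agent.L7h61.SP.s_CAUCHY F H ℓ hab hℓ
        ⟨e, by rw [hd, he]; ring⟩
      have hab1 := isAbelian_of_le hab g1 g2
      have hlt : finrank ℚ H₁ < n := by
        rw [← hn, ← g3]
        have h5 : 0 < finrank ℚ H₁ := by
          haveI := hab1.fin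
          exact Module.finrank_pos
        nlinarith [hℓ.two_le]
      obtain ⟨n₁, hn₁, hS1⟩ := ih _ hlt H₁ 𝔣 art rfl hab1 (fun x hx => hreal x (g2 hx))
        (unramified_mono hu g2) h0 h1 (artin_restrict hart g2) hs
      obtain ⟨Ps, hg, hPQ⟩ := sCF F H 𝔣 art hab h0 hart
      obtain ⟨n₂, hn₂, hS2⟩ := common hq Ps (fun R hR => by
        obtain ⟨hR1, hR2, hR3⟩ := hg.1 R (Finset.mem_coe.2 hR)
        exact hY 𝔣 R hR1 hR2 hR3 hs H art hab hreal hu h0 h1 hart)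
      have hnn := not_dvd_mul hq hn₁ hn₂
      refine ⟨n₁ * n₂ * ℓ, not_dvd_mul hq hnn (not_dvd_prime hq hℓ hℓ2),
        index_pow hSM (ne_zero_of hnn) hab g1 g2 h1 hart hg
          (by simpa only [Finset.mem_coe] using hPQ) (fun P hP => ?_) (pow_mult n₂ hS1) g3.symm⟩
      have h9 := pow_mult n₁ (hS2 P (Finset.mem_coe.1 hP))
      rwa [mul_comm n₂ n₁] at h9
  intro H 𝔣 art hab hreal hu h0 h1 hart hs
  exact key _ H 𝔣 art rfl hab hreal hu h0 h1 hart hs

/-- all base fields -/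
theorem gen_all (hSM : S_SUMM) {q : ℕ} (hq : q.Prime) {M : ℕ}
    (hM : ConjPart ι F q (fun _ 𝔣 => ManyPrimes F M 𝔣))
    (h' : ConjPart ι F q (fun H 𝔣 => PrimePower F H q ∧ ¬ ManyPrimes F M 𝔣)) :
    ConjPart ι F q (fun _ _ => True) := by
  have key : ∀ N : ℕ, ConjPart ι F q (fun _ 𝔣 => ManyPrimes F N 𝔣) →
      ConjPart ι F q (fun _ _ => True) := by
    intro N
    induction N with
    | zero =>
      intro h H 𝔣 art hab hreal hu h0 h1 hart _
      exact h H 𝔣 art hab hreal hu h0 h1 hart ⟨∅, rfl, by simp⟩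
    | succ n ih =>
      intro h
      refine ih (descend hSM hq (fun 𝔣 => ManyPrimes F n 𝔣) ?_ ?_)
      · intro 𝔣 P hP hP0 hPc hs H art hab hreal hu h0 h1 hart
        exact h H (𝔣 * P) art hab hreal (unramified_mul hu) (mul_ne_zero h0 hP0) (mul_ne_top h1)
          (artin_mul hart) (many_mul hs hP hPc)
      · intro H 𝔣 art hab hreal hu h0 h1 hart hs hPP
        by_cases hMM : ManyPrimes F M 𝔣
        · exact hM H 𝔣 art hab hreal hu h0 h1 hart hMM
        · exact h' H 𝔣 art hab hreal hu h0 h1 hart ⟨hPP, hMM⟩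
  exact key M hM

lemma triv_pow (ht : Conj ι F (fun H _ => H = F)) {H : Sub} {𝔣 : Ideals F} {art : Ideals F → GQ}
    (hab : IsAbelian F H) (hreal : ∀ x ∈ H, (ι x).im = 0) (hu : Unramified F H 𝔣) (h0 : 𝔣 ≠ ⊥)
    (h1 : 𝔣 ≠ ⊤) (hart : IsArtin F H 𝔣 art) : StarkPow ι F F 𝔣 art 1 :=
  PW.real_iff.1 (ht F 𝔣 art (isAbelian_of_le hab le_rfl hab.le) (fun x hx => hreal x (hab.le hx))
    (unramified_mono hu hab.le) h0 h1 (artin_restrict hart hab.le) rfl)

/-- a second real place, `q` odd -/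
theorem odd_all (hSM : S_SUMM) (hw : SecondReal ι F) (ht : Conj ι F (fun H _ => H = F))
    {q : ℕ} (hq : q.Prime) (hq2 : q ≠ 2) {M : ℕ}
    (hM : ConjPart ι F q (fun _ 𝔣 => ManyPrimes F M 𝔣)) :
    ConjPart ι F q (fun _ _ => True) := by
  have key : ∀ N : ℕ, ConjPart ι F q (fun _ 𝔣 => ManyPrimes F N 𝔣) →
      ConjPart ι F q (fun _ _ => True) := by
    intro N
    induction N with
    | zero =>
      intro h H 𝔣 art hab hreal hu h0 h1 hart _
      exact h H 𝔣 art hab hreal hu h0 h1 hart ⟨∅, rfl, by simp⟩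
    | succ n ih =>
      intro h
      refine ih ?_
      intro H 𝔣 art hab hreal hu h0 h1 hart hs
      obtain ⟨Ps, hg, hPQ⟩ := sCF F H 𝔣 art hab h0 hart
      obtain ⟨n, hn, hn2⟩ := common hq Ps (fun R hR => by
        obtain ⟨hR1, hR2, hR3⟩ := hg.1 R (Finset.mem_coe.2 hR)
        exact h H (𝔣 * R) art hab hreal (unramified_mul hu) (mul_ne_zero h0 hR2) (mul_ne_top h1)
          (artin_mul hart) (many_mul hs hR1 hR3))
      refine ⟨2 * n, not_dvd_mul hq ?_ hn, ?_⟩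
      · exact not_dvd_prime hq Nat.prime_two (Ne.symm hq2)
      · exact double_gen hSM (ne_zero_of hn) hab h1 hart hg
          (by simpa only [Finset.mem_coe] using hPQ) (fun P hP => hn2 P (Finset.mem_coe.1 hP)) hw
          one_ne_zero (triv_pow ht hab hreal hu h0 h1 hart)
  exact key M hM

/-- a second real place, the primes above two in `S`: one set -/
theorem two_one (hSM : S_SUMM) (hw : SecondReal ι F) (ht : Conj ι F (fun H _ => H = F))
    {q : ℕ} (hq : q.Prime) (H : Sub) (𝔣 : Ideals F) (art : Ideals F → GQ)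
    (hab : IsAbelian F H) (hreal : ∀ x ∈ H, (ι x).im = 0) (hu : Unramified F H 𝔣) (h0 : 𝔣 ≠ ⊥)
    (h1 : 𝔣 ≠ ⊤) (hart : IsArtin F H 𝔣 art) (h2 : AboveTwo F 𝔣)
    (hY : ∀ P : Ideals F, P.IsPrime → P ≠ ⊥ → Cop F P 𝔣 → ∀ (H : Sub) (art : Ideals F → GQ),
      IsAbelian F H → (∀ x ∈ H, (ι x).im = 0) → Unramified F H 𝔣 →
      IsArtin F H 𝔣 art → StarkPart ι F H (𝔣 * P) art q) : StarkPart ι F H 𝔣 art q := by
  obtain ⟨k, ζ, hζ, hab', hdeg⟩ := Pool.Agent.L7h25.SP.s_TWO F H hab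
  obtain ⟨art', hart'⟩ := s_art F (H ⊔ ℚ⟮ζ + ζ⁻¹⟯) 𝔣 hab' h1
  have hle : H ≤ H ⊔ ℚ⟮ζ + ζ⁻¹⟯ := le_sup_left
  refine change_part hab hu h1 hart (artin_restrict hart' hle) ?_
  obtain ⟨Ps, hg, hPQ⟩ := sCF F _ 𝔣 art' hab' h0 hart'
  obtain ⟨n, hn, hn2⟩ := common hq Ps (fun R hR => by
    obtain ⟨hR1, hR2, hR3⟩ := hg.1 R (Finset.mem_coe.2 hR)
    exact hY R hR1 hR2 hR3 _ art' hab' (real_two hreal hζ) (unramified_two hu h2 hζ) hart')
  exact ⟨n, hn, even_gen hSM (ne_zero_of hn) hab' hab.le hle hdeg h1 hart' hg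
    (by simpa only [Finset.mem_coe] using hPQ) (fun P hP => hn2 P (Finset.mem_coe.1 hP)) hw
    one_ne_zero (triv_pow ht hab' (real_two hreal hζ) (unramified_two hu h2 hζ) h0 h1 hart')⟩

/-- a second real place, the primes above two in `S` -/
theorem two_all (hSM : S_SUMM) (hw : SecondReal ι F) (ht : Conj ι F (fun H _ => H = F))
    {q : ℕ} (hq : q.Prime) {M : ℕ}
    (hM : ConjPart ι F q (fun _ 𝔣 => AboveTwo F 𝔣 ∧ ManyPrimes F M 𝔣)) :
    ConjPart ι F q (fun _ 𝔣 => AboveTwo F 𝔣) := by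
  have key : ∀ N : ℕ, ConjPart ι F q (fun _ 𝔣 => AboveTwo F 𝔣 ∧ ManyPrimes F N 𝔣) →
      ConjPart ι F q (fun _ 𝔣 => AboveTwo F 𝔣) := by
    intro N
    induction N with
    | zero =>
      intro h H 𝔣 art hab hreal hu h0 h1 hart h2
      exact h H 𝔣 art hab hreal hu h0 h1 hart ⟨h2, ∅, rfl, by simp⟩
    | succ n ih =>
      intro h
      refine ih ?_
      intro H 𝔣 art hab hreal hu h0 h1 hart ⟨h2, hs⟩
      refine two_one hSM hw ht hq H 𝔣 art hab hreal hu h0 h1 hart h2 ?_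
      intro P hP hP0 hPc H art hab hreal hu hart
      exact h H (𝔣 * P) art hab hreal (unramified_mul hu) (mul_ne_zero h0 hP0) (mul_ne_top h1)
        (artin_mul hart) ⟨fun Q hQ h2Q => Ideal.mul_le_left.trans (h2 Q hQ h2Q), many_mul hs hP hPc⟩
  exact key M hM

/-- a second real place, all sets -/
theorem real_all (hSM : S_SUMM) (hw : SecondReal ι F) (ht : Conj ι F (fun H _ => H = F))
    {q : ℕ} (hq : q.Prime) {M : ℕ}
    (hM : ConjPart ι F q (fun _ 𝔣 => ManyPrimes F M 𝔣))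
    (h' : ConjPart ι F q (fun H 𝔣 => PrimePower F H q ∧ ¬ AboveTwo F 𝔣 ∧ ¬ ManyPrimes F M 𝔣)) :
    ConjPart ι F q (fun _ _ => True) := by
  have key : ∀ N : ℕ, ConjPart ι F q (fun _ 𝔣 => ManyPrimes F N 𝔣) →
      ConjPart ι F q (fun _ _ => True) := by
    intro N
    induction N with
    | zero =>
      intro h H 𝔣 art hab hreal hu h0 h1 hart _
      exact h H 𝔣 art hab hreal hu h0 h1 hart ⟨∅, rfl, by simp⟩
    | succ n ih =>
      intro h
      refine ih (descend hSM hq (fun 𝔣 => ManyPrimes F n 𝔣) ?_ ?_)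
      · intro 𝔣 P hP hP0 hPc hs H art hab hreal hu h0 h1 hart
        exact h H (𝔣 * P) art hab hreal (unramified_mul hu) (mul_ne_zero h0 hP0) (mul_ne_top h1)
          (artin_mul hart) (many_mul hs hP hPc)
      · intro H 𝔣 art hab hreal hu h0 h1 hart hs hPP
        by_cases hMM : ManyPrimes F M 𝔣
        · exact hM H 𝔣 art hab hreal hu h0 h1 hart hMM
        by_cases h2 : AboveTwo F 𝔣
        · refine two_one hSM hw ht hq H 𝔣 art hab hreal hu h0 h1 hart h2 ?_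
          intro P hP hP0 hPc H art hab hreal hu hart
          exact h H (𝔣 * P) art hab hreal (unramified_mul hu) (mul_ne_zero h0 hP0)
            (mul_ne_top h1) (artin_mul hart) (many_mul hs hP hPc)
        · exact h' H 𝔣 art hab hreal hu h0 h1 hart ⟨hPP, h2, hMM⟩
  exact key M hM

end

end Pool.Agent.L7h5.SP.GB
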