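import Pool.Agent.L7h5.SP.StmQ

/-! # Project SP: maximal extensions -/

set_option autoImplicit false

namespace Pool.Agent.L7h5.SP.PW
open NumberField Module IntermediateField
open Pool.Agent.L7h5.SP
open Pool.Agent.K4H33.SK (Qbar)
open Pool.Agent.K4H33.SK.Stmt (Sub Ideals)
open Pool.Agent.L7h10.RQ (IsAbelian Unramified)

/-- `H` has no extension of even degree which is abelian over `F`, real for `ι` and unramified outside
the primes dividing `𝔣`. -/
def TwoMaximal (ι : Qbar →+* ℂ) (F H : Sub) [NumberField F] (𝔣 : Ideals F) : Prop :=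
  ∀ H' : Sub, IsAbelian F H' → H ≤ H' → (∀ x ∈ H', (ι x).im = 0) → Unramified F H' 𝔣 →
    ¬ 2 * finrank ℚ H ∣ finrank ℚ H'

end Pool.Agent.L7h5.SP.PW
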