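import Pool.Agent.L7h5.SP.FinG
import Pool.Agent.L7h5.SP.StmM
import Pool.Agent.L7h29.SP.Summ

/-! # Project SP: the two-part, from maximal extensions -/

set_option autoImplicit false
set_option linter.all false

namespace Pool.Agent.L7h5.SP.PW
open NumberField Module IntermediateField
open Pool.Agent.L7h5.SP
open Pool.Agent.K4H33.SK (Qbar GQ Fixes IsZeta AbelianRoot cnt_congr)
open Pool.Agent.K4H33.SK.Stmt (Sub Ideals nrm Cop IsArtin cnt cntAll Above)
open Pool.Agent.L7h10.RQ (IsAbelian StarkReal0 Unramified s_art s_uni' artin_restrict)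

section
variable {ι : Qbar →+* ℂ} {F : Sub} [NumberField F]

/-- all sets, from maximal extensions -/
theorem max_all (hF : finrank ℚ F = 2) {q : ℕ} (hq : q.Prime) {M : ℕ}
    (hM : ConjPart ι F q (fun _ 𝔣 => ManyPrimes F M 𝔣))
    (h' : ConjPart ι F q (fun H 𝔣 => GB.PrimePower F H q ∧ TwoMaximal ι F H 𝔣 ∧
      ¬ ManyPrimes F M 𝔣)) :
    ConjPart ι F q (fun _ _ => True) := by
  have key : ∀ N : ℕ, ConjPart ι F q (fun _ 𝔣 => ManyPrimes F N 𝔣) →
      ConjPart ι F q (fun _ _ => True) := by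
    intro N
    induction N with
    | zero =>
      intro h H 𝔣 art hab hreal hu h0 h1 hart _
      exact h H 𝔣 art hab hreal hu h0 h1 hart ⟨∅, rfl, by simp⟩
    | succ n ih =>
      intro h
      refine ih (GB.descend Pool.Agent.L7h29.SP.s_SUMM hq (fun 𝔣 => ManyPrimes F n 𝔣) ?_ ?_)
      · intro 𝔣 P hP hP0 hPc hs H art hab hreal hu h0 h1 hart
        exact h H (𝔣 * P) art hab hreal (unramified_mul hu) (mul_ne_zero h0 hP0) (mul_ne_top h1)
          (artin_mul hart) (many_mul hs hP hPc)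
      · intro H 𝔣 art hab hreal hu h0 h1 hart hs hPP
        by_cases hMM : ManyPrimes F M 𝔣
        · exact hM H 𝔣 art hab hreal hu h0 h1 hart hMM
        by_cases hmax : TwoMaximal ι F H 𝔣
        · exact h' H 𝔣 art hab hreal hu h0 h1 hart ⟨hPP, hmax, hMM⟩
        unfold TwoMaximal at hmax
        push Not at hmax
        obtain ⟨H', hab', hle, hreal', hu', hdeg⟩ := hmax
        obtain ⟨art', hart'⟩ := s_art F H' 𝔣 hab' h1
        refine change_part hab hu h1 hart (artin_restrict hart' hle) ?_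
        obtain ⟨Ps, hg, hPQ⟩ := sCF F H' 𝔣 art' hab' h0 hart'
        obtain ⟨n, hn, hn2⟩ := common hq Ps (fun R hR => by
          obtain ⟨hR1, hR2, hR3⟩ := hg.1 R (Finset.mem_coe.2 hR)
          exact h _ (𝔣 * R) art' hab' hreal' (unramified_mul hu')
            (mul_ne_zero h0 hR2) (mul_ne_top h1) (artin_mul hart') (many_mul hs hR1 hR3))
        exact ⟨n, hn, even_pow Pool.Agent.L7h40.SP.s_REPS Pool.Agent.L7h79.SP.s_SUM
          Pool.Agent.L7h61.SP.s_DEDA Pool.Agent.L7h61.SP.s_DEDB Pool.Agent.L7h40.SP.s_TAU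
          Pool.Agent.L7h40.SP.s_REL (Pool.Agent.L7h77.SP.s_ZZ Pool.Agent.L7h93.SP.s_CONT)
          ι F H _ 𝔣 art' ↑Ps n (ne_zero_of hn) hF hab' hab.le hle hdeg hreal' h0 h1
          hart' hg (by simpa only [Finset.mem_coe] using hPQ)
          (fun P hP => hn2 P (Finset.mem_coe.1 hP))⟩
  exact key M hM

/-- the two-part and the conjecture -/
theorem max_conj (hF : finrank ℚ F = 2) {N : ℕ}
    (h : ∀ q : ℕ, q.Prime →
      ConjPart ι F q (fun H 𝔣 => CyclicOutside F H q ∧ ManyPrimes F N 𝔣))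
    (h' : ConjPart ι F 2 (fun H 𝔣 => TwoPower F H ∧ TwoMaximal ι F H 𝔣 ∧
      ¬ ManyPrimes F N 𝔣)) :
    Conj ι F (fun _ _ => True) := by
  refine glue Pool.Agent.L7h25.SP.s_GLUE _ (fun q hq => ?_)
  by_cases hq2 : q = 2
  · subst hq2
    exact max_all hF hq (M := N) (sylq sSQ hq _ (h 2 hq)) h'
  · exact main_odd sSQ hF hq hq2 (h q hq)

/-- no set containing the primes above two is needed: there are even extensions -/
theorem not_maximal {H : Sub} {𝔣 : Ideals F} (hab : IsAbelian F H)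
    (hreal : ∀ x ∈ H, (ι x).im = 0) (hu : Unramified F H 𝔣) (h2 : AboveTwo F 𝔣) :
    ¬ TwoMaximal ι F H 𝔣 := by
  intro hm
  obtain ⟨k, ζ, hζ, hab', hdeg⟩ := Pool.Agent.L7h25.SP.s_TWO F H hab
  exact hm _ hab' le_sup_left (real_two hreal hζ) (unramified_two hu h2 hζ) hdeg

/-- the conjecture for all sets -/
theorem final_conj (hF : finrank ℚ F = 2) {N : ℕ}
    (h : ∀ q : ℕ, q.Prime →
      ConjPart ι F q (fun H 𝔣 => CyclicOutside F H q ∧ ManyPrimes F N 𝔣))
    (h' : ConjPart ι F 2 (fun H 𝔣 => TwoPower F H ∧ TwoMaximal ι F H 𝔣 ∧ ¬ AboveTwo F 𝔣 ∧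
      ¬ ManyPrimes F N 𝔣)) :
    Conj ι F (fun _ _ => True) := by
  refine max_conj hF h ?_
  intro H 𝔣 art hab hreal hu h0 h1 hart ⟨a1, a2, a3⟩
  exact h' H 𝔣 art hab hreal hu h0 h1 hart ⟨a1, a2, fun h2 => not_maximal hab hreal hu h2 a2, a3⟩

end

end Pool.Agent.L7h5.SP.PW
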