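import Pool.Agent.L7h5.SP.Fin
import Pool.Agent.L7h5.SP.Stm3

/-! # Project SP: the statements about the `q`-parts of the conjecture -/

set_option autoImplicit false

namespace Pool.Agent.L7h5.SP.PW
open NumberField Module IntermediateField
open Pool.Agent.L7h5.SP
open Pool.Agent.K4H33.SK (Qbar GQ)
open Pool.Agent.K4H33.SK.Stmt (Sub Ideals IsArtin)
open Pool.Agent.L7h10.RQ (IsAbelian StarkReal0 Unramified)

/-- The Sylow subgroups of the Galois group of `H/F` for the primes other than `q` are cyclic. -/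
def CyclicOutside (F H : Sub) (q : ℕ) : Prop := ∀ ℓ : ℕ, ℓ.Prime → NonCyclic F H ℓ → ℓ = q

/-- The `q`-part of the Stark–Tate conjecture over `F` for all pairs `(H, S)` with the property `X`. -/
def ConjPart (ι : Qbar →+* ℂ) (F : Sub) [NumberField F] (q : ℕ) (X : Sub → Ideals F → Prop) :
    Prop :=
  ∀ (H : Sub) (𝔣 : Ideals F) (art : Ideals F → GQ), IsAbelian F H → (∀ x ∈ H, (ι x).im = 0) →
    Unramified F H 𝔣 → 𝔣 ≠ ⊥ → 𝔣 ≠ ⊤ → IsArtin F H 𝔣 art → X H 𝔣 → StarkPart ι F H 𝔣 art q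

/-- A prime `ℓ` with non-cyclic Sylow subgroup: the conjecture for the proper subfields of `H/F`
implies the conjecture for `H/F` up to the power `ℓ`. -/
def LinesStep (ι : Qbar →+* ℂ) (F : Sub) [NumberField F] : Prop :=
  ∀ (H : Sub) (𝔣 : Ideals F) (art : Ideals F → GQ) (ℓ : ℕ), ℓ.Prime → IsAbelian F H →
    IsArtin F H 𝔣 art → NonCyclic F H ℓ →
    (∀ H₀ : Sub, F ≤ H₀ → H₀ < H → StarkReal0 ι F H₀ 𝔣 art) → StarkPow ι F H 𝔣 art ℓ

/-- The `q`-part of the conjecture for the subextensions of `H/F` with cyclic Sylow subgroups for the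
primes other than `q` implies the `q`-part of the conjecture for `H/F`. -/
def SylowStep (ι : Qbar →+* ℂ) (F : Sub) [NumberField F] : Prop :=
  ∀ (H : Sub) (𝔣 : Ideals F) (art : Ideals F → GQ) (q : ℕ), q.Prime → IsAbelian F H →
    IsArtin F H 𝔣 art →
    (∀ H₀ : Sub, F ≤ H₀ → H₀ ≤ H → CyclicOutside F H₀ q → StarkPart ι F H₀ 𝔣 art q) →
    StarkPart ι F H 𝔣 art q

end Pool.Agent.L7h5.SP.PW
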