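import Pool.Agent.L7h5.SP.MainN
import Pool.Agent.L7h5.SP.Asm
import Pool.Agent.L7h5.SP.StmQ
import Pool.Agent.L7h23.SP.Linq
import Pool.Agent.L7h25.SP.Glue
import Pool.Agent.L7h25.SP.Chebf

/-! # Project SP: the `q`-parts of the conjecture -/

set_option autoImplicit false
set_option linter.all false

namespace Pool.Agent.L7h5.SP.PW
open NumberField Module IntermediateField
open Pool.Agent.L7h5.SP
open Pool.Agent.K4H33.SK (Qbar GQ Fixes IsZeta AbelianRoot cnt_congr)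
open Pool.Agent.K4H33.SK.Stmt (Sub Ideals nrm Cop IsArtin cnt cntAll Above)
open Pool.Agent.L7h10.RQ (IsAbelian StarkReal0 Unramified s_art s_uni' artin_restrict)

theorem sCF : S_CHEBF := Pool.Agent.L7h25.SP.s_CHEBF Pool.Agent.L7h40.SP.s_REPS

section
variable {ι : Qbar →+* ℂ} {F : Sub} [NumberField F]

lemma change_part {H : Sub} {𝔣 : Ideals F} {q : ℕ}
    {art art' : Ideals F → GQ} (hab : IsAbelian F H) (hu : Unramified F H 𝔣) (h1 : 𝔣 ≠ ⊤)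
    (ha : IsArtin F H 𝔣 art) (ha' : IsArtin F H 𝔣 art') (h : StarkPart ι F H 𝔣 art' q) :
    StarkPart ι F H 𝔣 art q := by
  have e := s_uni' F H 𝔣 𝔣 hab hu h1 h1 (fun _ h => h) art art' ha ha'
  obtain ⟨n, hn, Z, ε, g1, g2, g3, g4, g5⟩ := h
  refine ⟨n, hn, Z, ε, g1, g2, g3, ?_, g5⟩
  intro σ hσ
  have h6 : cnt F H 𝔣 art σ = cnt F H 𝔣 art' σ := by
    funext n
    unfold cnt
    refine Nat.card_congr (Equiv.subtypeEquivRight fun 𝔟 => ?_)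
    refine and_congr_right fun _ => and_congr_right fun hc => forall₂_congr fun x hx => ?_
    rw [e 𝔟 hc x hx]
  rw [h6]
  exact g4 σ hσ

lemma not_dvd_mul {q : ℕ} (hq : q.Prime) {m n : ℤ} (hm : ¬ (q : ℤ) ∣ m) (hn : ¬ (q : ℤ) ∣ n) :
    ¬ (q : ℤ) ∣ m * n := fun h =>
  ((Nat.prime_iff_prime_int.1 hq).dvd_or_dvd h).elim hm hn

lemma ne_zero_of {q : ℕ} {n : ℤ} (hn : ¬ (q : ℤ) ∣ n) : n ≠ 0 := by
  rintro rfl
  exact hn (dvd_zero _)

/-- a common exponent -/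
lemma common {H : Sub} {𝔣 : Ideals F} {art : Ideals F → GQ} {q : ℕ} (hq : q.Prime)
    (Ps : Finset (Ideals F)) (h : ∀ P ∈ Ps, StarkPart ι F H (𝔣 * P) art q) :
    ∃ n : ℤ, ¬ (q : ℤ) ∣ n ∧ ∀ P ∈ Ps, StarkPow ι F H (𝔣 * P) art n := by
  classical
  induction Ps using Finset.induction_on with
  | empty =>
    refine ⟨1, ?_, by simp⟩
    intro h1
    have := Int.isUnit_iff.1 (isUnit_of_dvd_one h1)
    have h2 := hq.two_le
    omega
  | insert P s hPs ih =>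
    obtain ⟨n, hn, hn2⟩ := ih (fun Q hQ => h Q (Finset.mem_insert_of_mem hQ))
    obtain ⟨m, hm, hm2⟩ := h P (Finset.mem_insert_self P s)
    refine ⟨n * m, not_dvd_mul hq hn hm, ?_⟩
    intro Q hQ
    rcases Finset.mem_insert.1 hQ with rfl | hQ
    · exact (mul_comm m n) ▸ pow_mult n hm2
    · exact pow_mult m (hn2 Q hQ)

/-- one more prime, `q` odd -/
theorem stepq (hF : finrank ℚ F = 2) {q : ℕ} (hq : q.Prime) (hq2 : q ≠ 2) {N : ℕ}
    (h : ConjPart ι F q (fun _ 𝔣 => ManyPrimes F (N + 1) 𝔣)) :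
    ConjPart ι F q (fun _ 𝔣 => ManyPrimes F N 𝔣) := by
  intro H 𝔣 art hab hreal hu h0 h1 hart hs
  obtain ⟨Ps, hg, hPQ⟩ := sCF F H 𝔣 art hab h0 hart
  obtain ⟨n, hn, hn2⟩ := common hq Ps (fun R hR => by
    obtain ⟨hR1, hR2, hR3⟩ := hg.1 R (Finset.mem_coe.2 hR)
    exact h H (𝔣 * R) art hab hreal (unramified_mul hu) (mul_ne_zero h0 hR2) (mul_ne_top h1)
      (artin_mul hart) (many_mul hs hR1 hR3))
  refine ⟨2 * n, not_dvd_mul hq ?_ hn, ?_⟩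
  · intro h2
    have h3 : q ∣ 2 := by exact_mod_cast h2
    exact hq2 ((Nat.prime_dvd_prime_iff_eq hq Nat.prime_two).1 h3)
  · exact double_pow Pool.Agent.L7h40.SP.s_REPS Pool.Agent.L7h79.SP.s_SUM
      Pool.Agent.L7h61.SP.s_DEDA Pool.Agent.L7h61.SP.s_DEDB Pool.Agent.L7h40.SP.s_TAU
      Pool.Agent.L7h40.SP.s_REL (Pool.Agent.L7h77.SP.s_ZZ Pool.Agent.L7h93.SP.s_CONT)
      ι F H 𝔣 art ↑Ps n (ne_zero_of hn) hF hab hreal h0 h1 hart hg
      (by simpa only [Finset.mem_coe] using hPQ) (fun P hP => hn2 P (Finset.mem_coe.1 hP))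

theorem iterq (hF : finrank ℚ F = 2) {q : ℕ} (hq : q.Prime) (hq2 : q ≠ 2) {N : ℕ}
    (h : ConjPart ι F q (fun _ 𝔣 => ManyPrimes F N 𝔣)) :
    ConjPart ι F q (fun _ _ => True) := by
  induction N with
  | zero =>
    intro H 𝔣 art hab hreal hu h0 h1 hart h2
    exact h H 𝔣 art hab hreal hu h0 h1 hart ⟨∅, rfl, by simp⟩
  | succ n ih => exact ih (stepq hF hq hq2 h)

/-- one more prime, `q = 2`, primes above two in `S` (for any prime `q`) -/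
theorem step_twoq (hF : finrank ℚ F = 2) {q : ℕ} (hq : q.Prime) {N : ℕ}
    (h : ConjPart ι F q (fun _ 𝔣 => AboveTwo F 𝔣 ∧ ManyPrimes F (N + 1) 𝔣)) :
    ConjPart ι F q (fun _ 𝔣 => AboveTwo F 𝔣 ∧ ManyPrimes F N 𝔣) := by
  intro H 𝔣 art hab hreal hu h0 h1 hart ⟨h2, hs⟩
  obtain ⟨k, ζ, hζ, hab', hdeg⟩ := Pool.Agent.L7h25.SP.s_TWO F H hab
  obtain ⟨art', hart'⟩ := s_art F (H ⊔ ℚ⟮ζ + ζ⁻¹⟯) 𝔣 hab' h1
  have hle : H ≤ H ⊔ ℚ⟮ζ + ζ⁻¹⟯ := le_sup_left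
  refine change_part hab hu h1 hart (artin_restrict hart' hle) ?_
  obtain ⟨Ps, hg, hPQ⟩ := sCF F _ 𝔣 art' hab' h0 hart'
  obtain ⟨n, hn, hn2⟩ := common hq Ps (fun R hR => by
    obtain ⟨hR1, hR2, hR3⟩ := hg.1 R (Finset.mem_coe.2 hR)
    exact h _ (𝔣 * R) art' hab' (real_two hreal hζ) (unramified_mul (unramified_two hu h2 hζ))
      (mul_ne_zero h0 hR2) (mul_ne_top h1) (artin_mul hart')
      ⟨fun P hP h2P => Ideal.mul_le_left.trans (h2 P hP h2P), many_mul hs hR1 hR3⟩)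
  exact ⟨n, hn, even_pow Pool.Agent.L7h40.SP.s_REPS Pool.Agent.L7h79.SP.s_SUM
      Pool.Agent.L7h61.SP.s_DEDA Pool.Agent.L7h61.SP.s_DEDB Pool.Agent.L7h40.SP.s_TAU
      Pool.Agent.L7h40.SP.s_REL (Pool.Agent.L7h77.SP.s_ZZ Pool.Agent.L7h93.SP.s_CONT)
      ι F H _ 𝔣 art' ↑Ps n (ne_zero_of hn) hF hab' hab.le hle hdeg (real_two hreal hζ) h0 h1
      hart' hg (by simpa only [Finset.mem_coe] using hPQ) (fun P hP => hn2 P (Finset.mem_coe.1 hP))⟩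

/-- one more prime, all sets, any prime `q` -/
theorem step_allq (hF : finrank ℚ F = 2) {q : ℕ} (hq : q.Prime) {N : ℕ}
    (h : ConjPart ι F q (fun _ 𝔣 => ManyPrimes F (N + 1) 𝔣))
    (h' : ConjPart ι F q (fun H 𝔣 => TwoPower F H ∧ ¬ AboveTwo F 𝔣)) :
    ConjPart ι F q (fun _ 𝔣 => ManyPrimes F N 𝔣) := by
  have key : ∀ n : ℕ, ∀ (H : Sub) (𝔣 : Ideals F) (art : Ideals F → GQ), finrank ℚ H = n →
      IsAbelian F H → (∀ x ∈ H, (ι x).im = 0) → Unramified F H 𝔣 → 𝔣 ≠ ⊥ → 𝔣 ≠ ⊤ →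
      IsArtin F H 𝔣 art → ManyPrimes F N 𝔣 → StarkPart ι F H 𝔣 art q := by
    intro n
    induction n using Nat.strong_induction_on with
    | _ n ih =>
      intro H 𝔣 art hn hab hreal hu h0 h1 hart hs
      by_cases h2 : AboveTwo F 𝔣
      · refine step_twoq hF hq (N := N) ?_ H 𝔣 art hab hreal hu h0 h1 hart ⟨h2, hs⟩
        intro H 𝔣 art hab hreal hu h0 h1 hart ⟨h2, hs⟩
        exact h H 𝔣 art hab hreal hu h0 h1 hart hs
      by_cases h3 : TwoPower F H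
      · exact h' H 𝔣 art hab hreal hu h0 h1 hart ⟨h3, h2⟩
      haveI := hab.fin
      have hdvd : finrank ℚ F ∣ finrank ℚ H := by
        exact IntermediateField.finrank_dvd_of_le_right hab.le
      obtain ⟨d, hd⟩ := hdvd
      have hH0 : 0 < finrank ℚ H := Module.finrank_pos
      have hd0 : d ≠ 0 := by
        rintro rfl
        rw [mul_zero] at hd
        omega
      obtain ⟨ℓ, hℓ, hℓ2, e, he⟩ := exists_odd_prime hd0 (fun k hk => h3 ⟨k, by rw [hd, hk, mul_comm]⟩)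
      obtain ⟨H₁, g1, g2, g3⟩ := Pool.Agent.L7h61.SP.s_CAUCHY F H ℓ hab hℓ ⟨e, by rw [hd, he]; ring⟩
      have hab1 := isAbelian_of_le hab g1 g2
      have hlt : finrank ℚ H₁ < n := by
        rw [← hn, ← g3]
        have h5 : 0 < finrank ℚ H₁ := by
          haveI := hab1.fin
          exact Module.finrank_pos
        nlinarith [hℓ.two_le]
      obtain ⟨n₁, hn₁, hS1⟩ := ih _ hlt H₁ 𝔣 art rfl hab1 (fun x hx => hreal x (g2 hx))
        (unramified_mono hu g2) h0 h1 (artin_restrict hart g2) hs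
      obtain ⟨Ps, hg, hPQ⟩ := sCF F H 𝔣 art hab h0 hart
      obtain ⟨n₂, hn₂, hS2⟩ := common hq Ps (fun R hR => by
        obtain ⟨hR1, hR2, hR3⟩ := hg.1 R (Finset.mem_coe.2 hR)
        exact h H (𝔣 * R) art hab hreal (unramified_mul hu) (mul_ne_zero h0 hR2) (mul_ne_top h1)
          (artin_mul hart) (many_mul hs hR1 hR3))
      obtain ⟨m, hm⟩ := hℓ.odd_of_ne_two hℓ2
      have hnn := not_dvd_mul hq hn₁ hn₂
      refine ⟨n₁ * n₂, hnn, odd_pow Pool.Agent.L7h40.SP.s_REPS Pool.Agent.L7h79.SP.s_SUM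
        Pool.Agent.L7h61.SP.s_DEDA Pool.Agent.L7h61.SP.s_DEDB Pool.Agent.L7h40.SP.s_TAU
        Pool.Agent.L7h40.SP.s_REL (Pool.Agent.L7h77.SP.s_ZZ Pool.Agent.L7h93.SP.s_CONT)
        ι F H₁ H 𝔣 art ↑Ps (n₁ * n₂) (ne_zero_of hnn) hF hab g1 g2 ⟨m, by rw [← hm, g3]⟩ hreal
        h0 h1 hart hg (by simpa only [Finset.mem_coe] using hPQ) (fun P hP => ?_)
        (pow_mult n₂ hS1)⟩
      have h9 := pow_mult n₁ (hS2 P (Finset.mem_coe.1 hP))
      rwa [mul_comm n₂ n₁] at h9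
  intro H 𝔣 art hab hreal hu h0 h1 hart hs
  exact key _ H 𝔣 art rfl hab hreal hu h0 h1 hart hs

theorem iter_allq (hF : finrank ℚ F = 2) {q : ℕ} (hq : q.Prime) {N : ℕ}
    (h : ConjPart ι F q (fun _ 𝔣 => ManyPrimes F N 𝔣))
    (h' : ConjPart ι F q (fun H 𝔣 => TwoPower F H ∧ ¬ AboveTwo F 𝔣)) :
    ConjPart ι F q (fun _ _ => True) := by
  induction N with
  | zero =>
    intro H 𝔣 art hab hreal hu h0 h1 hart h2
    exact h H 𝔣 art hab hreal hu h0 h1 hart ⟨∅, rfl, by simp⟩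
  | succ n ih => exact ih (step_allq hF hq h h')

theorem iter_twoq (hF : finrank ℚ F = 2) {q : ℕ} (hq : q.Prime) {N : ℕ}
    (h : ConjPart ι F q (fun _ 𝔣 => AboveTwo F 𝔣 ∧ ManyPrimes F N 𝔣)) :
    ConjPart ι F q (fun _ 𝔣 => AboveTwo F 𝔣) := by
  induction N with
  | zero =>
    intro H 𝔣 art hab hreal hu h0 h1 hart h2
    exact h H 𝔣 art hab hreal hu h0 h1 hart ⟨h2, ∅, rfl, by simp⟩
  | succ n ih => exact ih (step_twoq hF hq h)

/-- Sylow subgroups -/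
theorem sylq (hSQ : S_SYLQ) {q : ℕ} (hq : q.Prime) (Y : Ideals F → Prop)
    (h : ConjPart ι F q (fun H 𝔣 => CyclicOutside F H q ∧ Y 𝔣)) :
    ConjPart ι F q (fun _ 𝔣 => Y 𝔣) := by
  intro H 𝔣 art hab hreal hu h0 h1 hart hY
  refine hSQ ι F H 𝔣 art q hq hab hart ?_
  intro H₀ hFH hH hX
  exact h H₀ 𝔣 art (isAbelian_of_le hab hFH hH) (fun x hx => hreal x (hH hx))
    (unramified_mono hu hH) h0 h1 (artin_restrict hart hH) ⟨hX, hY⟩

/-- the conjecture from its parts -/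
theorem glue (hG : S_GLUE) (X : Sub → Ideals F → Prop)
    (h : ∀ q : ℕ, q.Prime → ConjPart ι F q X) : Conj ι F X := by
  intro H 𝔣 art hab hreal hu h0 h1 hart hX
  exact hG ι F H 𝔣 art hab.le (fun q hq => h q hq H 𝔣 art hab hreal hu h0 h1 hart hX)

lemma part_of_conj {q : ℕ} (hq : q.Prime) {X : Sub → Ideals F → Prop} (h : Conj ι F X) :
    ConjPart ι F q X := by
  intro H 𝔣 art hab hreal hu h0 h1 hart hX
  refine ⟨1, ?_, real_iff.1 (h H 𝔣 art hab hreal hu h0 h1 hart hX)⟩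
  intro h1
  have := Int.isUnit_iff.1 (isUnit_of_dvd_one h1)
  have h2 := hq.two_le
  omega

/-- odd `q` -/
theorem main_odd (hSQ : S_SYLQ) (hF : finrank ℚ F = 2) {q : ℕ} (hq : q.Prime)
    (hq2 : q ≠ 2) {N : ℕ}
    (h : ConjPart ι F q (fun H 𝔣 => CyclicOutside F H q ∧ ManyPrimes F N 𝔣)) :
    ConjPart ι F q (fun _ _ => True) :=
  iterq hF hq hq2 (N := N) (sylq hSQ hq _ h)

/-- primes above two in `S` -/
theorem main_two (hSQ : S_SYLQ) (hG : S_GLUE) (hF : finrank ℚ F = 2) {N : ℕ}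
    (h : ∀ q : ℕ, q.Prime →
      ConjPart ι F q (fun H 𝔣 => CyclicOutside F H q ∧ AboveTwo F 𝔣 ∧ ManyPrimes F N 𝔣)) :
    Conj ι F (fun _ 𝔣 => AboveTwo F 𝔣) :=
  glue hG _ (fun q hq => iter_twoq hF hq (N := N) (sylq hSQ hq _ (h q hq)))

/-- all sets -/
theorem main_all (hSQ : S_SYLQ) (hG : S_GLUE) (hF : finrank ℚ F = 2) {N : ℕ}
    (h : ∀ q : ℕ, q.Prime →
      ConjPart ι F q (fun H 𝔣 => CyclicOutside F H q ∧ ManyPrimes F N 𝔣))
    (h' : ConjPart ι F 2 (fun H 𝔣 => TwoPower F H ∧ ¬ AboveTwo F 𝔣)) :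
    Conj ι F (fun _ _ => True) := by
  refine glue hG _ (fun q hq => ?_)
  by_cases hq2 : q = 2
  · subst hq2
    exact iter_allq hF hq (N := N) (sylq hSQ hq _ (h 2 hq)) h'
  · exact main_odd hSQ hF hq hq2 (h q hq)

end

theorem sSQ : S_SYLQ := Pool.Agent.L7h23.SP.s_SYLQ Pool.Agent.L7h23.SP.s_LINQ

theorem linesStep (ι : Qbar →+* ℂ) (F : Sub) [NumberField F] : LinesStep ι F :=
  fun H 𝔣 art ℓ => sLines ι F H 𝔣 art ℓ

theorem sylowStep (ι : Qbar →+* ℂ) (F : Sub) [NumberField F] : SylowStep ι F :=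
  fun H 𝔣 art q => sSQ ι F H 𝔣 art q

end Pool.Agent.L7h5.SP.PW
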