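import Pool.Agent.L7h5.SP.Un

/-! # Project SP: the main theorem -/

set_option autoImplicit false
set_option linter.all false

namespace Pool.Agent.L7h5.SP
open NumberField Module IntermediateField
open Pool.Agent.K4H33.SK (Qbar GQ Fixes IsZeta AbelianRoot fixes_iff mem_of_fixed Fixes.mul
  Fixes.inv Fixes.mono Fixes.one comm_of_root isZeta_unique isZeta_deriv cnt_congr)
open Pool.Agent.K4H33.SK.Stmt (Sub Ideals nrm Cop IsArtin cnt cntAll)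
open Pool.Agent.L7h10.RQ (IsAbelian StarkReal0)

/-- closure of a property under the subgroup generated -/
lemma all_of_generate {F H' : Sub} [NumberField F] {𝔣 : Ideals F} {art : Ideals F → GQ}
    {Ps : Set (Ideals F)} (hgen : Generate F H' 𝔣 art Ps) (V : GQ → Prop)
    (h1 : ∀ σ, Fixes H' σ → V σ) (hm : ∀ σ τ, V σ → V τ → V (σ * τ)) (hi : ∀ σ, V σ → V σ⁻¹)
    (hP : ∀ P ∈ Ps, V (art P)⁻¹) : ∀ σ, Fixes F σ → V σ := by
  let W : Subgroup GQ :=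
    { carrier := {σ | V σ}
      mul_mem' := fun {a b} ha hb => hm a b ha hb
      one_mem' := h1 1 (Fixes.one H')
      inv_mem' := fun {a} ha => hi a ha }
  intro σ hσ
  exact hgen.2 W (fun τ hτ => h1 τ hτ)
    (fun P hP' => by have := hi _ (hP P hP'); rwa [inv_inv] at this) σ hσ

section
variable {ι : Qbar →+* ℂ} {F H' : Sub} [NumberField F] {𝔣 : Ideals F} {art : Ideals F → GQ}
  {Ps : Set (Ideals F)} {Z : GQ → ℂ → ℂ}

lemma congr_Z (hab : IsAbelian F H') (hZ : ∀ σ : GQ, Fixes F σ → IsZeta (cnt F H' 𝔣 art σ) (Z σ))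
    {σ σ' : GQ} (hσ : Fixes F σ) (hσ' : Fixes F σ') (h : ∀ x ∈ H', σ x = σ' x) :
    deriv (Z σ) 0 = deriv (Z σ') 0 ∧ Z σ 0 = Z σ' 0 :=
  isZeta_deriv (hZ σ hσ) (hZ σ' hσ') (fun n _ => cnt_congr F H' 𝔣 art h n)

lemma agree_comm (hab : IsAbelian F H') {σ φ : GQ} (hσ : Fixes F σ) (hφ : Fixes F φ) :
    ∀ x ∈ H', (σ * φ) x = (φ * σ) x := fun x hx => hab.comm σ φ hσ hφ x hx

lemma agree_fix (hab : IsAbelian F H') {σ φ : GQ} (hσ : Fixes F σ) (hφ : Fixes H' φ) :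
    ∀ x ∈ H', (φ * σ) x = σ x := fun x hx => hφ _ (hab.normal σ hσ x hx)

/-- the values at zero do not depend on the class -/
lemma z_const (hab : IsAbelian F H') (hZ : ∀ σ : GQ, Fixes F σ → IsZeta (cnt F H' 𝔣 art σ) (Z σ))
    (hart : IsArtin F H' 𝔣 art) (hgen : Generate F H' 𝔣 art Ps) (hREL : S_REL)
    (hS : ∀ P ∈ Ps, StarkReal0 ι F H' (𝔣 * P) art) :
    ∀ φ, Fixes F φ → ∀ σ, Fixes F σ → Z (φ * σ) 0 = Z σ 0 := by
  have key := all_of_generate hgen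
    (fun φ => Fixes F φ ∧ ∀ σ, Fixes F σ → Z (φ * σ) 0 = Z σ 0) ?_ ?_ ?_ ?_
  · exact fun φ hφ => (key φ hφ).2
  · intro φ hφ
    refine ⟨hφ.mono hab.le, fun σ hσ => ?_⟩
    exact (congr_Z hab hZ ((hφ.mono hab.le).mul hσ) hσ (agree_fix hab hσ hφ)).2
  · rintro φ ψ ⟨h1, h2⟩ ⟨h3, h4⟩
    refine ⟨h1.mul h3, fun σ hσ => ?_⟩
    rw [mul_assoc, h2 _ (h3.mul hσ), h4 _ hσ]
  · rintro φ ⟨h1, h2⟩
    refine ⟨h1.inv, fun σ hσ => ?_⟩
    have := h2 (φ⁻¹ * σ) (h1.inv.mul hσ)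
    rw [mul_inv_cancel_left] at this
    exact this.symm
  · intro P hP
    obtain ⟨hp, hp0, hpc⟩ := hgen.1 P hP
    refine ⟨(hart.fix P hpc).inv, fun σ hσ => ?_⟩
    obtain ⟨ZP, ε, -, -, -, h4, -⟩ := hS P hP
    have h5 := (hREL F H' 𝔣 P art hab.le hart hp hp0 hpc Z hZ σ (ZP σ) hσ (h4 σ hσ).1).1
    rw [(h4 σ hσ).2.1] at h5
    exact (sub_eq_zero.1 h5.symm).symm

lemma anti {c : GQ} (hab : IsAbelian F H') (hcF : Fixes F c)
    (hc : ∀ w : Qbar →+* ℂ, (∃ x ∈ F, w x ≠ ι x) → ∀ x ∈ H', w (c x) = (starRingEnd ℂ) (w x))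
    (hw : ∃ w : Qbar →+* ℂ, ∃ x ∈ F, w x ≠ ι x) {e : Qbar} (he : e ∈ H')
    (hn : ∀ w : Qbar →+* ℂ, (∃ x ∈ F, w x ≠ ι x) → ‖w e‖ = 1) : e * c e = 1 := by
  obtain ⟨w, hw⟩ := hw
  apply w.injective
  rw [map_mul, hc w hw e he, Complex.mul_conj, map_one, Complex.normSq_eq_norm_sq, hn w hw]
  norm_num

end

end Pool.Agent.L7h5.SP
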