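import Pool.Agent.L7h5.SP.MainA

/-! # Project SP: the main theorem, second part -/

set_option autoImplicit false
set_option linter.all false

namespace Pool.Agent.L7h5.SP
open NumberField Module IntermediateField
open Pool.Agent.K4H33.SK (Qbar GQ Fixes IsZeta AbelianRoot fixes_iff mem_of_fixed Fixes.mul
  Fixes.inv Fixes.mono Fixes.one comm_of_root isZeta_unique isZeta_deriv cnt_congr)
open Pool.Agent.K4H33.SK.Stmt (Sub Ideals nrm Cop IsArtin cnt cntAll)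
open Pool.Agent.L7h10.RQ (IsAbelian StarkReal0)

lemma exp_real_one {a b : ℂ} (ha : a.im = 0) (hb : b.im = 0)
    (h : Complex.exp (-2 * a) * Complex.exp (-2 * b) = 1) : a + b = 0 := by
  have ha' : a = (a.re : ℂ) := Complex.ext (by simp) (by simp [ha])
  have hb' : b = (b.re : ℂ) := Complex.ext (by simp) (by simp [hb])
  rw [← Complex.exp_add, ha', hb'] at h
  have h1 : Complex.exp (((-2 * a.re + -2 * b.re : ℝ)) : ℂ) = 1 := by
    rw [← h]; push_cast; ring_nf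
  rw [← Complex.ofReal_exp] at h1
  have h2 : Real.exp (-2 * a.re + -2 * b.re) = 1 := by exact_mod_cast h1
  have h3 : -2 * a.re + -2 * b.re = 0 := Real.exp_eq_one_iff _ |>.1 h2
  rw [ha', hb', ← Complex.ofReal_add]
  have : a.re + b.re = 0 := by linarith
  rw [this]; simp

section
variable {ι : Qbar →+* ℂ} {F H H' : Sub} [NumberField F] {𝔣 : Ideals F} {art : Ideals F → GQ}
  {Ps : Set (Ideals F)} {Z : GQ → ℂ → ℂ}

/-- the sum over representatives -/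
lemma sum_reps (hSUM : S_SUM) (hab : IsAbelian F H') (hFH : F ≤ H) (hHH' : H ≤ H')
    (hart : IsArtin F H' 𝔣 art)
    (hZ : ∀ σ : GQ, Fixes F σ → IsZeta (cnt F H' 𝔣 art σ) (Z σ)) {R : Finset GQ}
    (hR : IsReps H H' R) {σ : GQ} (hσ : Fixes F σ) :
    IsZeta (cnt F H 𝔣 art σ) (fun s => ∑ r ∈ R, Z (σ * r) s) ∧
      deriv (fun s => ∑ r ∈ R, Z (σ * r) s) 0 = ∑ r ∈ R, deriv (Z (σ * r)) 0 := by
  have h1 : ∀ r ∈ R, IsZeta (cnt F H' 𝔣 art (σ * r)) (Z (σ * r)) := fun r hr =>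
    hZ _ (hσ.mul ((hR.1 r hr).mono hFH))
  have h2 := isZeta_sum R (fun r => cnt F H' 𝔣 art (σ * r)) (fun r => Z (σ * r)) h1
  have h3 := deriv_sum_zero R (fun r => cnt F H' 𝔣 art (σ * r)) (fun r => Z (σ * r)) h1
  have h4 : cnt F H 𝔣 art σ = fun n => ∑ r ∈ R, cnt F H' 𝔣 art (σ * r) n := by
    funext n
    exact hSUM F H H' 𝔣 art hab hFH hHH' hart.fix R hR σ hσ n
  rw [h4]
  exact ⟨h2, h3⟩

/-- the facts about the derivatives -/
lemma facts (hREPS : S_REPS) (hSUM : S_SUM) (hREL : S_REL) (hab : IsAbelian F H')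
    (hart : IsArtin F H' 𝔣 art) (hgen : Generate F H' 𝔣 art Ps)
    (hS : ∀ P ∈ Ps, StarkReal0 ι F H' (𝔣 * P) art)
    (hZ : ∀ σ : GQ, Fixes F σ → IsZeta (cnt F H' 𝔣 art σ) (Z σ))
    (hD : ∃ Z : ℂ → ℂ, IsZeta (cnt F F 𝔣 art 1) Z ∧ Z 0 = 0 ∧ deriv Z 0 = 0)
    (hw : ∃ w : Qbar →+* ℂ, ∃ x ∈ F, w x ≠ ι x) {c : GQ} (hcF : Fixes F c)
    (hc : ∀ w : Qbar →+* ℂ, (∃ x ∈ F, w x ≠ ι x) → ∀ x ∈ H', w (c x) = (starRingEnd ℂ) (w x)) :
    (∀ σ, Fixes F σ → Z σ 0 = 0) ∧ (∀ σ, Fixes F σ → (deriv (Z σ) 0).im = 0) ∧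
    (∀ σ, Fixes F σ → deriv (Z σ) 0 + deriv (Z (c * σ)) 0 = 0) ∧
    (∀ φ, Fixes F φ → ∃ e, Un ι F H' e ∧ ∀ σ, Fixes F σ →
      ι (σ e) = Complex.exp (-2 * (deriv (Z σ) 0 - deriv (Z (φ * σ)) 0))) := by
  obtain ⟨Z1, hZ1, hZ10, hZ1d⟩ := hD
  obtain ⟨R, hR, hRc⟩ := hREPS F F H' hab le_rfl hab.le
  haveI := hab.fin
  have hR0 : (R.card : ℂ) ≠ 0 := by
    rw [Nat.cast_ne_zero]
    rintro h
    rw [h, zero_mul] at hRc
    exact (Module.finrank_pos (R := ℚ) (M := H')).ne hRc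
  -- sums over the representatives
  have hsum : ∀ σ, Fixes F σ → ∑ r ∈ R, Z (σ * r) 0 = 0 ∧ ∑ r ∈ R, deriv (Z (σ * r)) 0 = 0 := by
    intro σ hσ
    obtain ⟨h1, h2⟩ := sum_reps hSUM hab le_rfl hab.le hart hZ hR hσ
    have h3 := isZeta_deriv h1 hZ1 (fun n _ => cnt_congr F F 𝔣 art
      (g := σ) (g' := 1) (fun x hx => hσ x hx) n)
    rw [h2, hZ1d] at h3
    rw [hZ10] at h3
    exact ⟨h3.2, h3.1⟩
  -- values at zero
  have hzc := z_const (ι := ι) hab hZ hart hgen hREL hS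
  have hz : ∀ σ, Fixes F σ → Z σ 0 = 0 := by
    have h1 := (hsum 1 (Fixes.one F)).1
    have h2 : ∀ r ∈ R, Z (1 * r) 0 = Z 1 0 := by
      intro r hr
      have := hzc r (hR.1 r hr) 1 (Fixes.one F)
      rw [one_mul]; rw [mul_one] at this; exact this
    rw [Finset.sum_congr rfl h2, Finset.sum_const, nsmul_eq_mul] at h1
    have h3 : Z 1 0 = 0 := by
      rcases mul_eq_zero.1 h1 with h | h
      · exact absurd h hR0
      · exact h
    intro σ hσ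
    have := hzc σ hσ 1 (Fixes.one F)
    rw [mul_one] at this
    rw [this, h3]
  -- the relation for a prime
  have hrel : ∀ P ∈ Ps, ∃ e, Un ι F H' e ∧ ∀ σ, Fixes F σ →
      (deriv (Z σ) 0 - deriv (Z ((art P)⁻¹ * σ)) 0).im = 0 ∧
      ι (σ e) = Complex.exp (-2 * (deriv (Z σ) 0 - deriv (Z ((art P)⁻¹ * σ)) 0)) := by
    intro P hP
    obtain ⟨hp, hp0, hpc⟩ := hgen.1 P hP
    obtain ⟨ZP, e, g1, g2, g3, g4, g5, g6⟩ := hS P hP
    have he0 : e ≠ 0 := by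
      rintro rfl
      have h7 := (g4 1 (fun _ _ => rfl)).2.2.2
      rw [map_zero, map_zero] at h7
      exact Complex.exp_ne_zero _ h7.symm
    refine ⟨e, ⟨g1, he0, g2, g3, g5, g6⟩, fun σ hσ => ?_⟩
    have h5 := (hREL F H' 𝔣 P art hab.le hart hp hp0 hpc Z hZ σ (ZP σ) hσ (g4 σ hσ).1).2
    rw [hz _ ((hart.fix P hpc).inv.mul hσ), mul_zero, add_zero] at h5
    rw [← h5]
    exact ⟨(g4 σ hσ).2.2.1, (g4 σ hσ).2.2.2⟩
  -- antisymmetry and reality up to constants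
  have hA : ∀ φ, Fixes F φ → ∀ σ, Fixes F σ →
      deriv (Z (φ * σ)) 0 + deriv (Z (φ * σ * c)) 0 = deriv (Z σ) 0 + deriv (Z (σ * c)) 0 ∧
      (deriv (Z (φ * σ)) 0).im = (deriv (Z σ) 0).im := by
    have key := all_of_generate hgen
      (fun φ => Fixes F φ ∧ ∀ σ, Fixes F σ →
      deriv (Z (φ * σ)) 0 + deriv (Z (φ * σ * c)) 0 = deriv (Z σ) 0 + deriv (Z (σ * c)) 0 ∧
      (deriv (Z (φ * σ)) 0).im = (deriv (Z σ) 0).im) ?_ ?_ ?_ ?_
    · exact fun φ hφ => (key φ hφ).2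
    · intro φ hφ
      have hφF := hφ.mono hab.le
      refine ⟨hφF, fun σ hσ => ?_⟩
      have e1 := (congr_Z hab hZ (hφF.mul hσ) hσ (agree_fix hab hσ hφ)).1
      have e2 := (congr_Z hab hZ (hφF.mul (hσ.mul hcF)) (hσ.mul hcF)
        (agree_fix hab (hσ.mul hcF) hφ)).1
      rw [e1, mul_assoc, e2]
      exact ⟨rfl, rfl⟩
    · rintro φ ψ ⟨h1, h2⟩ ⟨h3, h4⟩
      refine ⟨h1.mul h3, fun σ hσ => ?_⟩
      have a1 := h2 _ (h3.mul hσ)
      have a2 := h4 _ hσ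
      rw [mul_assoc φ ψ σ]
      exact ⟨a1.1.trans a2.1, a1.2.trans a2.2⟩
    · rintro φ ⟨h1, h2⟩
      refine ⟨h1.inv, fun σ hσ => ?_⟩
      have := h2 (φ⁻¹ * σ) (h1.inv.mul hσ)
      rw [mul_inv_cancel_left] at this
      exact ⟨this.1.symm, this.2.symm⟩
    · intro P hP
      obtain ⟨hp, hp0, hpc⟩ := hgen.1 P hP
      have hρ := (hart.fix P hpc).inv
      refine ⟨hρ, fun σ hσ => ?_⟩
      obtain ⟨e, hU, he⟩ := hrel P hP
      have e1 := anti hab hcF hc hw hU.1 hU.2.2.2.2.1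
      have e2 : ι (σ e) * ι ((σ * c) e) = 1 := by
        rw [← map_mul, AlgEquiv.mul_apply, ← map_mul, e1, map_one, map_one]
      rw [(he σ hσ).2, (he _ (hσ.mul hcF)).2] at e2
      have e3 := exp_real_one (he σ hσ).1 (he _ (hσ.mul hcF)).1 e2
      have e4 := (he σ hσ).1
      rw [Complex.sub_im, sub_eq_zero] at e4
      refine ⟨?_, e4.symm⟩
      rw [mul_assoc]
      linear_combination -e3
  have hre : ∀ σ, Fixes F σ → (deriv (Z σ) 0).im = 0 := by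
    have h1 := (hsum 1 (Fixes.one F)).2
    have h2 : ∀ r ∈ R, (deriv (Z (1 * r)) 0).im = (deriv (Z 1) 0).im := by
      intro r hr
      have := (hA r (hR.1 r hr) 1 (Fixes.one F)).2
      rw [one_mul]; rw [mul_one] at this; exact this
    have h3 := congrArg Complex.im h1
    rw [Complex.im_sum, Finset.sum_congr rfl h2, Finset.sum_const, nsmul_eq_mul,
      Complex.zero_im] at h3
    have h4 : (deriv (Z 1) 0).im = 0 := by
      rcases mul_eq_zero.1 h3 with h | h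
      · exact absurd (by exact_mod_cast h) hR0
      · exact h
    intro σ hσ
    have := (hA σ hσ 1 (Fixes.one F)).2
    rw [mul_one] at this
    rw [this, h4]
  have hcomm : ∀ σ, Fixes F σ → deriv (Z (σ * c)) 0 = deriv (Z (c * σ)) 0 := fun σ hσ =>
    (congr_Z hab hZ (hσ.mul hcF) (hcF.mul hσ) (agree_comm hab hσ hcF)).1
  have hanti : ∀ σ, Fixes F σ → deriv (Z σ) 0 + deriv (Z (c * σ)) 0 = 0 := by
    have h1 := (hsum 1 (Fixes.one F)).2
    have h1c := (hsum c hcF).2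
    have h2 : ∀ r ∈ R, deriv (Z (1 * r)) 0 + deriv (Z (c * r)) 0 =
        deriv (Z 1) 0 + deriv (Z c) 0 := by
      intro r hr
      have := (hA r (hR.1 r hr) 1 (Fixes.one F)).1
      rw [mul_one, one_mul, hcomm r (hR.1 r hr)] at this
      rw [one_mul]; exact this
    have h3 : ∑ r ∈ R, (deriv (Z (1 * r)) 0 + deriv (Z (c * r)) 0) = 0 := by
      rw [Finset.sum_add_distrib, h1, h1c, add_zero]
    rw [Finset.sum_congr rfl h2, Finset.sum_const, nsmul_eq_mul] at h3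
    have h4 : deriv (Z 1) 0 + deriv (Z c) 0 = 0 := by
      rcases mul_eq_zero.1 h3 with h | h
      · exact absurd h hR0
      · exact h
    intro σ hσ
    have := (hA σ hσ 1 (Fixes.one F)).1
    rw [mul_one, one_mul, hcomm σ hσ, h4] at this
    exact this
  refine ⟨hz, hre, hanti, ?_⟩
  -- the units
  have key := all_of_generate hgen (fun φ => Fixes F φ ∧ ∃ e, Un ι F H' e ∧ ∀ σ, Fixes F σ →
      ι (σ e) = Complex.exp (-2 * (deriv (Z σ) 0 - deriv (Z (φ * σ)) 0))) ?_ ?_ ?_ ?_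
  · exact fun φ hφ => (key φ hφ).2
  · intro φ hφ
    have hφF := hφ.mono hab.le
    refine ⟨hφF, 1, Un.one, fun σ hσ => ?_⟩
    rw [(congr_Z hab hZ (hφF.mul hσ) hσ (agree_fix hab hσ hφ)).1]
    simp
  · rintro φ ψ ⟨h1, e, hU, he⟩ ⟨h3, e', hU', he'⟩
    refine ⟨h1.mul h3, e' * ψ e, hU'.mul (hU.map hab h3), fun σ hσ => ?_⟩
    rw [map_mul, map_mul, he' σ hσ]
    have e1 : ι (σ (ψ e)) = ι ((σ * ψ) e) := rfl
    rw [e1, he _ (hσ.mul h3), ← Complex.exp_add]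
    have e2 := (congr_Z hab hZ (hσ.mul h3) (h3.mul hσ) (agree_comm hab hσ h3)).1
    have e3 : deriv (Z (φ * (σ * ψ))) 0 = deriv (Z (φ * ψ * σ)) 0 := by
      refine (congr_Z hab hZ (h1.mul (hσ.mul h3)) ((h1.mul h3).mul hσ) (fun x hx => ?_)).1
      have := agree_comm hab hσ h3 x hx
      simp only [AlgEquiv.mul_apply] at this ⊢
      rw [this]
    rw [e2, e3]
    congr 1
    ring
  · rintro φ ⟨h1, e, hU, he⟩
    refine ⟨h1.inv, (φ⁻¹ e)⁻¹, (hU.map hab h1.inv).inv, fun σ hσ => ?_⟩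
    rw [map_inv₀, map_inv₀]
    have e1 : ι (σ (φ⁻¹ e)) = ι ((σ * φ⁻¹) e) := rfl
    rw [e1, he _ (hσ.mul h1.inv), ← Complex.exp_neg]
    have e2 := (congr_Z hab hZ (hσ.mul h1.inv) (h1.inv.mul hσ) (agree_comm hab hσ h1.inv)).1
    have e3 : deriv (Z (φ * (σ * φ⁻¹))) 0 = deriv (Z σ) 0 := by
      refine (congr_Z hab hZ (h1.mul (hσ.mul h1.inv)) hσ (fun x hx => ?_)).1
      have := agree_comm hab hσ h1.inv x hx
      simp only [AlgEquiv.mul_apply] at this ⊢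
      rw [this, ← AlgEquiv.mul_apply, mul_inv_cancel, AlgEquiv.one_apply]
    rw [e2, e3]
    congr 1
    ring
  · intro P hP
    obtain ⟨hp, hp0, hpc⟩ := hgen.1 P hP
    obtain ⟨e, hU, he⟩ := hrel P hP
    exact ⟨(hart.fix P hpc).inv, e, hU, fun σ hσ => (he σ hσ).2⟩

end

theorem s_MAIN (hREPS : S_REPS) (hSUM : S_SUM) (hDEDA : S_DEDA) (hDEDB : S_DEDB) (hTAU : S_TAU)
    (hREL : S_REL) (hZZ : S_ZZ) : S_MAIN := by
  intro ι F H H' _ 𝔣 art Ps hF hab hFH hHH' hdeg hreal h0 h1 hart hgen hPQ hS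
  obtain ⟨P, hP, Q, hQ, hind⟩ := hPQ
  obtain ⟨hFr, hw, c, hcF, hc⟩ := hTAU ι F H' hF hab hreal
  have hDed := hDEDA F hF hFr
  have hD := hDEDB F hDed 𝔣 art h0 h1 hart.fix
  have hsm : ∀ s : ℂ, 1 < s.re → LSeriesSummable (fun n => (cntAll F n : ℂ)) s := by
    obtain ⟨Zd, hZd, -⟩ := hDed
    exact fun s hs => (hZd.2 s hs).LSeriesSummable
  have hex : ∀ P ∈ Ps, ∃ ZP : GQ → ℂ → ℂ, ∀ σ : GQ, Fixes F σ →
      IsZeta (cnt F H' (𝔣 * P) art σ) (ZP σ) ∧ ZP σ 0 = 0 := by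
    intro P hP
    obtain ⟨ZP, e, -, -, -, g4, -⟩ := hS P hP
    exact ⟨ZP, fun σ hσ => ⟨(g4 σ hσ).1, (g4 σ hσ).2.1⟩⟩
  obtain ⟨hp, hp0, hpc⟩ := hgen.1 P hP
  obtain ⟨hq, hq0, hqc⟩ := hgen.1 Q hQ
  obtain ⟨Z, hZ⟩ := hZZ F H' 𝔣 P Q art hab hart h1 hp hp0 hpc hq hq0 hqc hind hsm (hex P hP)
    (hex Q hQ)
  obtain ⟨hz, hre, hanti, hun⟩ := facts (ι := ι) hREPS hSUM hREL hab hart hgen hS hZ hD hw hcF hc
  obtain ⟨R, hR, hRc⟩ := hREPS F H H' hab hFH hHH'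
  haveI := hab.fin
  have hH0 : 0 < finrank ℚ H := by
    haveI : FiniteDimensional ℚ H :=
      FiniteDimensional.of_injective (IntermediateField.inclusion hHH').toLinearMap
        (IntermediateField.inclusion hHH').injective
    exact Module.finrank_pos
  obtain ⟨m, hm⟩ : ∃ m, R.card = 2 * m := by
    rw [← hRc] at hdeg
    exact Nat.dvd_of_mul_dvd_mul_right hH0 hdeg
  obtain ⟨e, hU, he⟩ : ∃ e : GQ → Qbar, (∀ φ, Fixes F φ → Un ι F H' (e φ)) ∧ ∀ φ, Fixes F φ →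
      ∀ σ, Fixes F σ → ι (σ (e φ)) = Complex.exp (-2 * (deriv (Z σ) 0 - deriv (Z (φ * σ)) 0)) := by
    classical
    choose! e h1 h2 using hun
    exact ⟨e, h1, h2⟩
  have hRF : ∀ r ∈ R, Fixes F r := fun r hr => (hR.1 r hr).mono hFH
  set ε : Qbar := e c ^ m * ∏ r ∈ R, (e r)⁻¹ with hε
  have hUε : Un ι F H' ε := ((hU c hcF).pow m).mul (Un.prod R _ fun r hr => (hU r (hRF r hr)).inv)
  -- the values
  have hval : ∀ σ, Fixes F σ →
      ι (σ ε) = Complex.exp (-2 * ∑ r ∈ R, deriv (Z (σ * r)) 0) := by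
    intro σ hσ
    have e1 : ∀ r ∈ R, ι (σ (e r)⁻¹) =
        Complex.exp (2 * (deriv (Z σ) 0 - deriv (Z (σ * r)) 0)) := by
      intro r hr
      rw [map_inv₀, map_inv₀, he r (hRF r hr) σ hσ, ← Complex.exp_neg,
        (congr_Z hab hZ (hσ.mul (hRF r hr)) ((hRF r hr).mul hσ) (agree_comm hab hσ (hRF r hr))).1]
      congr 1
      ring
    rw [hε, map_mul, map_mul, map_pow, map_pow, map_prod, map_prod, he c hcF σ hσ,
      Finset.prod_congr rfl e1, ← Complex.exp_nat_mul, ← Complex.exp_sum, ← Complex.exp_add]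
    congr 1
    have e2 : deriv (Z (c * σ)) 0 = - deriv (Z σ) 0 := by
      linear_combination hanti σ hσ
    rw [e2, ← Finset.mul_sum, Finset.sum_sub_distrib, Finset.sum_const, nsmul_eq_mul, hm]
    push_cast
    ring
  have hsr : ∀ σ, Fixes F σ → IsZeta (cnt F H 𝔣 art σ) (fun s => ∑ r ∈ R, Z (σ * r) s) ∧
      deriv (fun s => ∑ r ∈ R, Z (σ * r) s) 0 = ∑ r ∈ R, deriv (Z (σ * r)) 0 := fun σ hσ =>
    sum_reps hSUM hab hFH hHH' hart hZ hR hσ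
  have hεH : ε ∈ H := by
    apply mem_of_fixed
    intro g hg
    apply ι.injective
    have hgF := hg.mono hFH
    have e1 := hval g hgF
    have e2 := hval 1 (Fixes.one F)
    rw [← (hsr g hgF).2] at e1
    rw [← (hsr 1 (Fixes.one F)).2] at e2
    have e3 := (isZeta_deriv (hsr g hgF).1 (hsr 1 (Fixes.one F)).1 (fun n _ =>
      cnt_congr F H 𝔣 art (g := g) (g' := 1) (fun x hx => hg x hx) n)).1
    rw [e1, e3, ← e2, AlgEquiv.one_apply]
  refine ⟨fun σ s => ∑ r ∈ R, Z (σ * r) s, ε, hεH, hUε.2.2.1, hUε.2.2.2.1, fun σ hσ => ?_,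
    hUε.2.2.2.2.1, hUε.2.2.2.2.2⟩
  obtain ⟨a1, a2⟩ := hsr σ hσ
  refine ⟨a1, ?_, ?_, ?_⟩
  · exact Finset.sum_eq_zero fun r hr => hz _ (hσ.mul (hRF r hr))
  · rw [a2, Complex.im_sum]
    exact Finset.sum_eq_zero fun r hr => hre _ (hσ.mul (hRF r hr))
  · rw [a2]
    exact hval σ hσ

end Pool.Agent.L7h5.SP
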