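import Pool.Agent.L7h5.SP.Stm

/-!
# Project SP: two more parts
-/

set_option autoImplicit false

namespace Pool.Agent.L7h5.SP
open NumberField Module IntermediateField
open Pool.Agent.K4H33.SK (Qbar GQ Fixes IsZeta AbelianRoot)
open Pool.Agent.K4H33.SK.Stmt (Sub Ideals nrm Cop IsArtin cnt cntAll)
open Pool.Agent.L7h10.RQ (IsAbelian StarkReal0)

/-- **CAUCHY.** A subextension of prime index `ℓ`, for every prime `ℓ` dividing `[H : F]`.  (Cauchy's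
theorem for the finite group of the automorphisms fixing `F` modulo those fixing `H`, of order `[H : F]` by
`S_REPS`; the field fixed by an element of order `ℓ`: `Pool.Agent.L7h10.RQ.DataB.exists_field`.) -/
def S_CAUCHY : Prop :=
  ∀ (F H : Sub) (ℓ : ℕ), IsAbelian F H → ℓ.Prime → ℓ * finrank ℚ F ∣ finrank ℚ H →
    ∃ H₁ : Sub, F ≤ H₁ ∧ H₁ ≤ H ∧ ℓ * finrank ℚ H₁ = finrank ℚ H

/-- **ODD.** The conjecture for `H` and `S` follows from its case for a subextension `H₀` of odd index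
and `S`, and its case for `H` and `S ∪ {P}`, `P ∈ Ps`; here `S` may be any set. -/
def S_ODD0 : Prop :=
  ∀ (ι : Qbar →+* ℂ) (F H₀ H : Sub) [NumberField F] (𝔣 : Ideals F) (art : Ideals F → GQ)
    (Ps : Set (Ideals F)), finrank ℚ F = 2 → IsAbelian F H → F ≤ H₀ → H₀ ≤ H →
    (∃ m : ℕ, finrank ℚ H = (2 * m + 1) * finrank ℚ H₀) → (∀ x ∈ H, (ι x).im = 0) → 𝔣 ≠ ⊥ →
    𝔣 ≠ ⊤ → IsArtin F H 𝔣 art → Generate F H 𝔣 art Ps →
    (∃ P ∈ Ps, ∃ Q ∈ Ps, ∀ i j : ℕ, 0 < i → 0 < j → nrm F P ^ i ≠ nrm F Q ^ j) →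
    (∀ P ∈ Ps, StarkReal0 ι F H (𝔣 * P) art) → StarkReal0 ι F H₀ 𝔣 art → StarkReal0 ι F H 𝔣 art

end Pool.Agent.L7h5.SP
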