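import Pool.Agent.L7h5.SP.MainB
import Pool.Agent.L7h5.SP.Stm2

/-! # Project SP: subextensions of odd index -/

set_option autoImplicit false
set_option linter.all false

namespace Pool.Agent.L7h5.SP
open NumberField Module IntermediateField
open Pool.Agent.K4H33.SK (Qbar GQ Fixes IsZeta AbelianRoot fixes_iff mem_of_fixed Fixes.mul
  Fixes.inv Fixes.mono Fixes.one comm_of_root isZeta_unique isZeta_deriv cnt_congr)
open Pool.Agent.K4H33.SK.Stmt (Sub Ideals nrm Cop IsArtin cnt cntAll)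
open Pool.Agent.L7h10.RQ (IsAbelian StarkReal0)

theorem s_ODD0 (hREPS : S_REPS) (hSUM : S_SUM) (hDEDA : S_DEDA) (hDEDB : S_DEDB) (hTAU : S_TAU)
    (hREL : S_REL) (hZZ : S_ZZ) : S_ODD0 := by
  intro ι F H H' _ 𝔣 art Ps hF hab hFH hHH' hdeg hreal h0 h1 hart hgen hPQ hS hS0
  obtain ⟨m, hdeg⟩ := hdeg
  obtain ⟨P, hP, Q, hQ, hind⟩ := hPQ
  obtain ⟨hFr, hw, c, hcF, hc⟩ := hTAU ι F H' hF hab hreal
  have hDed := hDEDA F hF hFr
  have hD := hDEDB F hDed 𝔣 art h0 h1 hart.fix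
  have hsm : ∀ s : ℂ, 1 < s.re → LSeriesSummable (fun n => (cntAll F n : ℂ)) s := by
    obtain ⟨Zd, hZd, -⟩ := hDed
    exact fun s hs => (hZd.2 s hs).LSeriesSummable
  have hex : ∀ P ∈ Ps, ∃ ZP : GQ → ℂ → ℂ, ∀ σ : GQ, Fixes F σ →
      IsZeta (cnt F H' (𝔣 * P) art σ) (ZP σ) ∧ ZP σ 0 = 0 := by
    intro P hP
    obtain ⟨ZP, e, -, -, -, g4, -⟩ := hS P hP
    exact ⟨ZP, fun σ hσ => ⟨(g4 σ hσ).1, (g4 σ hσ).2.1⟩⟩
  obtain ⟨hp, hp0, hpc⟩ := hgen.1 P hP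
  obtain ⟨hq, hq0, hqc⟩ := hgen.1 Q hQ
  obtain ⟨Z, hZ⟩ := hZZ F H' 𝔣 P Q art hab hart h1 hp hp0 hpc hq hq0 hqc hind hsm (hex P hP)
    (hex Q hQ)
  obtain ⟨hz, hre, hanti, hun⟩ := facts (ι := ι) hREPS hSUM hREL hab hart hgen hS hZ hD hw hcF hc
  obtain ⟨R, hR, hRc⟩ := hREPS F H H' hab hFH hHH'
  haveI := hab.fin
  have hH0 : 0 < finrank ℚ H := by
    haveI : FiniteDimensional ℚ H :=
      FiniteDimensional.of_injective (IntermediateField.inclusion hHH').toLinearMap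
        (IntermediateField.inclusion hHH').injective
    exact Module.finrank_pos
  have hm : R.card = 2 * m + 1 := by
    rw [hdeg] at hRc
    exact Nat.eq_of_mul_eq_mul_right hH0 hRc
  obtain ⟨e, hU, he⟩ : ∃ e : GQ → Qbar, (∀ φ, Fixes F φ → Un ι F H' (e φ)) ∧ ∀ φ, Fixes F φ →
      ∀ σ, Fixes F σ → ι (σ (e φ)) = Complex.exp (-2 * (deriv (Z σ) 0 - deriv (Z (φ * σ)) 0)) := by
    classical
    choose! e h1 h2 using hun
    exact ⟨e, h1, h2⟩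
  obtain ⟨Z0, ε₀, b1, b2, b3, b4, b5, b6⟩ := hS0
  have hε₀0 : ε₀ ≠ 0 := by
    rintro rfl
    have h7 := (b4 1 (fun _ _ => rfl)).2.2.2
    rw [map_zero, map_zero] at h7
    exact Complex.exp_ne_zero _ h7.symm
  have hU0 : Un ι F H' ε₀ := ⟨hHH' b1, hε₀0, b2, b3, b5, b6⟩
  have hRF : ∀ r ∈ R, Fixes F r := fun r hr => (hR.1 r hr).mono hFH
  set ε : Qbar := ε₀ * (∏ r ∈ R, e r) * (e c ^ m)⁻¹ with hε
  have hUε : Un ι F H' ε := (hU0.mul (Un.prod R _ fun r hr => hU r (hRF r hr))).mul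
    ((hU c hcF).pow m).inv
  -- the values
  have hval : ∀ σ, Fixes F σ → ι (σ ε) = Complex.exp (-2 * deriv (Z σ) 0) := by
    intro σ hσ
    have e1 : ∀ r ∈ R, ι (σ (e r)) =
        Complex.exp (-2 * (deriv (Z σ) 0 - deriv (Z (σ * r)) 0)) := by
      intro r hr
      rw [he r (hRF r hr) σ hσ,
        (congr_Z hab hZ (hσ.mul (hRF r hr)) ((hRF r hr).mul hσ) (agree_comm hab hσ (hRF r hr))).1]
    obtain ⟨a1, a2⟩ := sum_reps hSUM hab hFH hHH' hart hZ hR hσ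
    have e3 := (isZeta_deriv (b4 σ hσ).1 a1 (fun n _ => rfl)).1
    rw [a2] at e3
    rw [hε, map_mul, map_mul, map_mul, map_mul, map_inv₀, map_inv₀, map_pow, map_pow, map_prod,
      map_prod, he c hcF σ hσ, Finset.prod_congr rfl e1, ← Complex.exp_nat_mul,
      ← Complex.exp_sum, ← Complex.exp_neg, (b4 σ hσ).2.2.2, ← Complex.exp_add,
      ← Complex.exp_add]
    congr 1
    have e2 : deriv (Z (c * σ)) 0 = - deriv (Z σ) 0 := by
      linear_combination hanti σ hσ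
    rw [e2, e3, ← Finset.mul_sum, Finset.sum_sub_distrib, Finset.sum_const, nsmul_eq_mul, hm]
    push_cast
    ring
  exact ⟨Z, ε, hUε.1, hUε.2.2.1, hUε.2.2.2.1,
    fun σ hσ => ⟨hZ σ hσ, hz σ hσ, hre σ hσ, hval σ hσ⟩, hUε.2.2.2.2.1, hUε.2.2.2.2.2⟩

end Pool.Agent.L7h5.SP
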