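import Pool.Agent.L7h5.SP.Stm

/-! # Project SP, fourth set of parts: general base fields -/

set_option autoImplicit false

namespace Pool.Agent.L7h5.SP
open NumberField Module IntermediateField
open Pool.Agent.K4H33.SK (Qbar GQ Fixes IsZeta AbelianRoot)
open Pool.Agent.K4H33.SK.Stmt (Sub Ideals nrm Cop IsArtin cnt cntAll)

/-- **SUMM.** The Dedekind zeta function of a number field converges absolutely for `Re s > 1`.
(`cntAll F n` is the number of ideals of norm `n`: `NumberField.Ideal.tendsto_norm_le_div_atTop` or the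
library, `dedekindZeta`.) -/
def S_SUMM : Prop :=
  ∀ (F : Sub) [NumberField F] (s : ℂ), 1 < s.re → LSeriesSummable (fun n => (cntAll F n : ℂ)) s

/-- **TAUG.** A complex conjugation for a real place of `F`.  (`exists_conj w`.) -/
def S_TAUG : Prop :=
  ∀ (F : Sub) [NumberField F] (w : Qbar →+* ℂ), (∀ x ∈ F, (w x).im = 0) →
    ∃ c : GQ, Fixes F c ∧ ∀ x : Qbar, w (c x) = (starRingEnd ℂ) (w x)

end Pool.Agent.L7h5.SP
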