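import Pool.Agent.L7h5.SP.FinQ
import Pool.Agent.L7h5.SP.Stm4

/-! # Project SP: the main theorems for all base fields -/

set_option autoImplicit false
set_option linter.all false

namespace Pool.Agent.L7h5.SP.GB
open NumberField Module IntermediateField
open Pool.Agent.L7h5.SP
open Pool.Agent.L7h5.SP.PW
open Pool.Agent.K4H33.SK (Qbar GQ Fixes IsZeta AbelianRoot fixes_iff mem_of_fixed Fixes.mul
  Fixes.inv Fixes.mono Fixes.one comm_of_root isZeta_unique isZeta_deriv cnt_congr exists_conj)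
open Pool.Agent.K4H33.SK.Stmt (Sub Ideals nrm Cop IsArtin cnt cntAll)
open Pool.Agent.L7h10.RQ (IsAbelian StarkReal0)

theorem s_TAUG : S_TAUG := by
  intro F _ w hw
  obtain ⟨c, hc⟩ := exists_conj w
  refine ⟨c, ?_, hc⟩
  intro x hx
  apply w.injective
  rw [hc]
  exact Complex.conj_eq_iff_im.2 (hw x hx)

section
variable {ι : Qbar →+* ℂ} {F H H' : Sub} [NumberField F] {𝔣 : Ideals F} {art : Ideals F → GQ}
  {Ps : Set (Ideals F)} {n : ℤ}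

/-- the facts about the derivatives, from a subextension -/
lemma pack0 (hSM : S_SUMM) (hn : n ≠ 0) (hab : IsAbelian F H') (hFH : F ≤ H) (hHH' : H ≤ H')
    (h1 : 𝔣 ≠ ⊤) (hart : IsArtin F H' 𝔣 art) (hgen : Generate F H' 𝔣 art Ps)
    (hPQ : ∃ P ∈ Ps, ∃ Q ∈ Ps, ∀ i j : ℕ, 0 < i → 0 < j → nrm F P ^ i ≠ nrm F Q ^ j)
    (hS : ∀ P ∈ Ps, StarkPow ι F H' (𝔣 * P) art n) {k : ℤ} (hS0 : StarkPow ι F H 𝔣 art k) :
    ∃ Z : GQ → ℂ → ℂ, (∀ σ, Fixes F σ → IsZeta (cnt F H' 𝔣 art σ) (Z σ)) ∧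
    (∀ σ, Fixes F σ → Z σ 0 = 0) ∧ (∀ σ, Fixes F σ → (deriv (Z σ) 0).im = 0) ∧
    (∀ φ, Fixes F φ → ∃ e, Un ι F H' e ∧ ∀ σ, Fixes F σ →
      ι (σ e) = Complex.exp (-2 * n * (deriv (Z σ) 0 - deriv (Z (φ * σ)) 0))) := by
  obtain ⟨P, hP, Q, hQ, hind⟩ := hPQ
  have hex : ∀ P ∈ Ps, ∃ ZP : GQ → ℂ → ℂ, ∀ σ : GQ, Fixes F σ →
      IsZeta (cnt F H' (𝔣 * P) art σ) (ZP σ) ∧ ZP σ 0 = 0 := by
    intro P hP
    obtain ⟨ZP, e, -, -, -, g4, -⟩ := hS P hP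
    exact ⟨ZP, fun σ hσ => ⟨(g4 σ hσ).1, (g4 σ hσ).2.1⟩⟩
  obtain ⟨hp, hp0, hpc⟩ := hgen.1 P hP
  obtain ⟨hq, hq0, hqc⟩ := hgen.1 Q hQ
  obtain ⟨Z, hZ⟩ := Pool.Agent.L7h77.SP.s_ZZ Pool.Agent.L7h93.SP.s_CONT F H' 𝔣 P Q art hab hart h1
    hp hp0 hpc hq hq0 hqc hind (hSM F) (hex P hP) (hex Q hQ)
  have hREL : S_REL := Pool.Agent.L7h40.SP.s_REL
  have hSUM : S_SUM := Pool.Agent.L7h79.SP.s_SUM
  obtain ⟨R, hR, hRc⟩ := Pool.Agent.L7h40.SP.s_REPS F H H' hab hFH hHH'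
  haveI := hab.fin
  have hR0 : (R.card : ℂ) ≠ 0 := by
    rw [Nat.cast_ne_zero]
    rintro h
    rw [h, zero_mul] at hRc
    exact (Module.finrank_pos (R := ℚ) (M := H')).ne hRc
  have hRF : ∀ r ∈ R, Fixes F r := fun r hr => (hR.1 r hr).mono hFH
  obtain ⟨Z0, ε₀, b1, b2, b3, b4, b5, b6⟩ := hS0
  -- sums over the representatives
  have hsum : ∑ r ∈ R, Z (1 * r) 0 = 0 ∧ (∑ r ∈ R, deriv (Z (1 * r)) 0).im = 0 := by
    obtain ⟨h1, h2⟩ := sum_reps hSUM hab hFH hHH' hart hZ hR (Fixes.one F)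
    have h3 := isZeta_deriv h1 (b4 1 (Fixes.one F)).1 (fun n _ => rfl)
    rw [h2, (b4 1 (Fixes.one F)).2.1] at h3
    refine ⟨h3.2, ?_⟩
    rw [h3.1]
    exact (b4 1 (Fixes.one F)).2.2.1
  -- values at zero
  have hzc := Pool.Agent.L7h5.SP.PW.z_const (ι := ι) (n := n) hab hZ hart hgen hREL hS
  have hz : ∀ σ, Fixes F σ → Z σ 0 = 0 := by
    have h1 := hsum.1
    have h2 : ∀ r ∈ R, Z (1 * r) 0 = Z 1 0 := by
      intro r hr
      have := hzc r (hRF r hr) 1 (Fixes.one F)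
      rw [one_mul]; rw [mul_one] at this; exact this
    rw [Finset.sum_congr rfl h2, Finset.sum_const, nsmul_eq_mul] at h1
    have h3 : Z 1 0 = 0 := by
      rcases mul_eq_zero.1 h1 with h | h
      · exact absurd h hR0
      · exact h
    intro σ hσ
    have := hzc σ hσ 1 (Fixes.one F)
    rw [mul_one] at this
    rw [this, h3]
  -- the relation for a prime
  have hrel : ∀ P ∈ Ps, ∃ e, Un ι F H' e ∧ ∀ σ, Fixes F σ →
      (deriv (Z σ) 0 - deriv (Z ((art P)⁻¹ * σ)) 0).im = 0 ∧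
      ι (σ e) = Complex.exp (-2 * n * (deriv (Z σ) 0 - deriv (Z ((art P)⁻¹ * σ)) 0)) := by
    intro P hP
    obtain ⟨hp, hp0, hpc⟩ := hgen.1 P hP
    obtain ⟨ZP, e, g1, g2, g3, g4, g5, g6⟩ := hS P hP
    have he0 : e ≠ 0 := by
      rintro rfl
      have h7 := (g4 1 (fun _ _ => rfl)).2.2.2
      rw [map_zero, map_zero] at h7
      exact Complex.exp_ne_zero _ h7.symm
    refine ⟨e, ⟨g1, he0, g2, g3, g5, g6⟩, fun σ hσ => ?_⟩
    have h5 := (hREL F H' 𝔣 P art hab.le hart hp hp0 hpc Z hZ σ (ZP σ) hσ (g4 σ hσ).1).2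
    rw [hz _ ((hart.fix P hpc).inv.mul hσ), mul_zero, add_zero] at h5
    rw [← h5]
    exact ⟨(g4 σ hσ).2.2.1, (g4 σ hσ).2.2.2⟩
  -- reality up to constants
  have hA : ∀ φ, Fixes F φ → ∀ σ, Fixes F σ →
      (deriv (Z (φ * σ)) 0).im = (deriv (Z σ) 0).im := by
    have key := all_of_generate hgen
      (fun φ => Fixes F φ ∧ ∀ σ, Fixes F σ → (deriv (Z (φ * σ)) 0).im = (deriv (Z σ) 0).im)
      ?_ ?_ ?_ ?_
    · exact fun φ hφ => (key φ hφ).2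
    · intro φ hφ
      have hφF := hφ.mono hab.le
      refine ⟨hφF, fun σ hσ => ?_⟩
      rw [(congr_Z hab hZ (hφF.mul hσ) hσ (agree_fix hab hσ hφ)).1]
    · rintro φ ψ ⟨h1, h2⟩ ⟨h3, h4⟩
      refine ⟨h1.mul h3, fun σ hσ => ?_⟩
      have a1 := h2 _ (h3.mul hσ)
      have a2 := h4 _ hσ
      rw [mul_assoc φ ψ σ]
      exact a1.trans a2
    · rintro φ ⟨h1, h2⟩
      refine ⟨h1.inv, fun σ hσ => ?_⟩
      have := h2 (φ⁻¹ * σ) (h1.inv.mul hσ)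
      rw [mul_inv_cancel_left] at this
      exact this.symm
    · intro P hP
      obtain ⟨hp, hp0, hpc⟩ := hgen.1 P hP
      have hρ := (hart.fix P hpc).inv
      refine ⟨hρ, fun σ hσ => ?_⟩
      obtain ⟨e, hU, he⟩ := hrel P hP
      have e4 := (he σ hσ).1
      rw [Complex.sub_im, sub_eq_zero] at e4
      exact e4.symm
  have hre : ∀ σ, Fixes F σ → (deriv (Z σ) 0).im = 0 := by
    have h1 := hsum.2
    have h2 : ∀ r ∈ R, (deriv (Z (1 * r)) 0).im = (deriv (Z 1) 0).im := by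
      intro r hr
      have := hA r (hRF r hr) 1 (Fixes.one F)
      rw [one_mul]; rw [mul_one] at this; exact this
    rw [Complex.im_sum, Finset.sum_congr rfl h2, Finset.sum_const, nsmul_eq_mul] at h1
    have h4 : (deriv (Z 1) 0).im = 0 := by
      rcases mul_eq_zero.1 h1 with h | h
      · exact absurd (by exact_mod_cast h) hR0
      · exact h
    intro σ hσ
    have := hA σ hσ 1 (Fixes.one F)
    rw [mul_one] at this
    rw [this, h4]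
  refine ⟨Z, hZ, hz, hre, ?_⟩
  -- the units
  have key := all_of_generate hgen (fun φ => Fixes F φ ∧ ∃ e, Un ι F H' e ∧ ∀ σ, Fixes F σ →
      ι (σ e) = Complex.exp (-2 * n * (deriv (Z σ) 0 - deriv (Z (φ * σ)) 0))) ?_ ?_ ?_ ?_
  · exact fun φ hφ => (key φ hφ).2
  · intro φ hφ
    have hφF := hφ.mono hab.le
    refine ⟨hφF, 1, Un.one, fun σ hσ => ?_⟩
    rw [(congr_Z hab hZ (hφF.mul hσ) hσ (agree_fix hab hσ hφ)).1]
    simp
  · rintro φ ψ ⟨h1, e, hU, he⟩ ⟨h3, e', hU', he'⟩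
    refine ⟨h1.mul h3, e' * ψ e, hU'.mul (hU.map hab h3), fun σ hσ => ?_⟩
    rw [map_mul, map_mul, he' σ hσ]
    have e1 : ι (σ (ψ e)) = ι ((σ * ψ) e) := rfl
    rw [e1, he _ (hσ.mul h3), ← Complex.exp_add]
    have e2 := (congr_Z hab hZ (hσ.mul h3) (h3.mul hσ) (agree_comm hab hσ h3)).1
    have e3 : deriv (Z (φ * (σ * ψ))) 0 = deriv (Z (φ * ψ * σ)) 0 := by
      refine (congr_Z hab hZ (h1.mul (hσ.mul h3)) ((h1.mul h3).mul hσ) (fun x hx => ?_)).1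
      have := agree_comm hab hσ h3 x hx
      simp only [AlgEquiv.mul_apply] at this ⊢
      rw [this]
    rw [e2, e3]
    congr 1
    ring
  · rintro φ ⟨h1, e, hU, he⟩
    refine ⟨h1.inv, (φ⁻¹ e)⁻¹, (hU.map hab h1.inv).inv, fun σ hσ => ?_⟩
    rw [map_inv₀, map_inv₀]
    have e1 : ι (σ (φ⁻¹ e)) = ι ((σ * φ⁻¹) e) := rfl
    rw [e1, he _ (hσ.mul h1.inv), ← Complex.exp_neg]
    have e2 := (congr_Z hab hZ (hσ.mul h1.inv) (h1.inv.mul hσ) (agree_comm hab hσ h1.inv)).1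
    have e3 : deriv (Z (φ * (σ * φ⁻¹))) 0 = deriv (Z σ) 0 := by
      refine (congr_Z hab hZ (h1.mul (hσ.mul h1.inv)) hσ (fun x hx => ?_)).1
      have := agree_comm hab hσ h1.inv x hx
      simp only [AlgEquiv.mul_apply] at this ⊢
      rw [this, ← AlgEquiv.mul_apply, mul_inv_cancel, AlgEquiv.one_apply]
    rw [e2, e3]
    congr 1
    ring
  · intro P hP
    obtain ⟨hp, hp0, hpc⟩ := hgen.1 P hP
    obtain ⟨e, hU, he⟩ := hrel P hP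
    exact ⟨(hart.fix P hpc).inv, e, hU, fun σ hσ => (he σ hσ).2⟩

/-- the same with the complex conjugation of a second real place -/
lemma pack1 (hSM : S_SUMM) (hn : n ≠ 0) (hab : IsAbelian F H')
    (h1 : 𝔣 ≠ ⊤) (hart : IsArtin F H' 𝔣 art) (hgen : Generate F H' 𝔣 art Ps)
    (hPQ : ∃ P ∈ Ps, ∃ Q ∈ Ps, ∀ i j : ℕ, 0 < i → 0 < j → nrm F P ^ i ≠ nrm F Q ^ j)
    (hS : ∀ P ∈ Ps, StarkPow ι F H' (𝔣 * P) art n)
    (hw : ∃ w : Qbar →+* ℂ, (∃ x ∈ F, w x ≠ ι x) ∧ ∀ x ∈ F, (w x).im = 0)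
    {k : ℤ} (hk : k ≠ 0) (hS0 : StarkPow ι F F 𝔣 art k) :
    ∃ (Z : GQ → ℂ → ℂ) (c : GQ), Fixes F c ∧
    (∀ σ, Fixes F σ → IsZeta (cnt F H' 𝔣 art σ) (Z σ)) ∧
    (∀ σ, Fixes F σ → Z σ 0 = 0) ∧ (∀ σ, Fixes F σ → (deriv (Z σ) 0).im = 0) ∧
    (∀ σ, Fixes F σ → deriv (Z σ) 0 + deriv (Z (c * σ)) 0 = 0) ∧
    (∀ φ, Fixes F φ → ∃ e, Un ι F H' e ∧ ∀ σ, Fixes F σ →
      ι (σ e) = Complex.exp (-2 * n * (deriv (Z σ) 0 - deriv (Z (φ * σ)) 0))) := by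
  obtain ⟨Z, hZ, hz, hre, hun⟩ := pack0 hSM hn hab le_rfl hab.le h1 hart hgen hPQ hS hS0
  obtain ⟨w, hw1, hw2⟩ := hw
  obtain ⟨c, hcF, hc⟩ := s_TAUG F w hw2
  refine ⟨Z, c, hcF, hZ, hz, hre, ?_, hun⟩
  have hSUM : S_SUM := Pool.Agent.L7h79.SP.s_SUM
  obtain ⟨R, hR, hRc⟩ := Pool.Agent.L7h40.SP.s_REPS F F H' hab le_rfl hab.le
  haveI := hab.fin
  have hR0 : (R.card : ℂ) ≠ 0 := by
    rw [Nat.cast_ne_zero]
    rintro h
    rw [h, zero_mul] at hRc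
    exact (Module.finrank_pos (R := ℚ) (M := H')).ne hRc
  obtain ⟨Z0, ε₀, b1, b2, b3, b4, b5, b6⟩ := hS0
  -- the trivial extension
  have hd0 : ∀ σ, Fixes F σ → deriv (Z0 σ) 0 = 0 := by
    intro σ hσ
    have e1 : ‖w ε₀‖ = 1 := b5 w hw1
    have e2 : ε₀ * ε₀ = 1 := by
      apply w.injective
      have e3 : (starRingEnd ℂ) (w ε₀) = w ε₀ := Complex.conj_eq_iff_im.2 (hw2 _ b1)
      rw [map_mul, map_one]
      nth_rewrite 2 [← e3]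
      rw [Complex.mul_conj, Complex.normSq_eq_norm_sq, e1]
      norm_num
    have e4 := (b4 σ hσ).2.2.2
    have e5 : ι (σ ε₀) * ι (σ ε₀) = 1 := by
      rw [← map_mul, ← map_mul, e2, map_one, map_one]
    rw [e4] at e5
    have e6 := Pool.Agent.L7h5.SP.PW.exp_real_one hk (b4 σ hσ).2.2.1 (b4 σ hσ).2.2.1 e5
    linear_combination e6 / 2
  have hsum : ∀ σ, Fixes F σ → ∑ r ∈ R, deriv (Z (σ * r)) 0 = 0 := by
    intro σ hσ
    obtain ⟨h1, h2⟩ := sum_reps hSUM hab le_rfl hab.le hart hZ hR hσ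
    have h3 := isZeta_deriv h1 (b4 σ hσ).1 (fun n _ => rfl)
    rw [h2, hd0 σ hσ] at h3
    exact h3.1
  have hcomm : ∀ σ, Fixes F σ → deriv (Z (σ * c)) 0 = deriv (Z (c * σ)) 0 := fun σ hσ =>
    (congr_Z hab hZ (hσ.mul hcF) (hcF.mul hσ) (agree_comm hab hσ hcF)).1
  have hA : ∀ φ, Fixes F φ → deriv (Z φ) 0 + deriv (Z (c * φ)) 0 =
      deriv (Z 1) 0 + deriv (Z c) 0 := by
    intro φ hφ
    obtain ⟨e, hU, he⟩ := hun φ hφ
    have e1 : e * c e = 1 := by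
      apply w.injective
      rw [map_mul, hc, Complex.mul_conj, map_one, Complex.normSq_eq_norm_sq, hU.2.2.2.2.1 w hw1]
      norm_num
    have e2 : ι ((1 : GQ) e) * ι (c e) = 1 := by
      rw [AlgEquiv.one_apply, ← map_mul, e1, map_one]
    rw [he 1 (Fixes.one F), he c hcF] at e2
    have i1 : (deriv (Z 1) 0 - deriv (Z (φ * 1)) 0).im = 0 := by
      rw [Complex.sub_im, hre 1 (Fixes.one F), hre _ (hφ.mul (Fixes.one F)), sub_zero]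
    have i2 : (deriv (Z c) 0 - deriv (Z (φ * c)) 0).im = 0 := by
      rw [Complex.sub_im, hre c hcF, hre _ (hφ.mul hcF), sub_zero]
    have e3 := Pool.Agent.L7h5.SP.PW.exp_real_one hn i1 i2 e2
    rw [mul_one, hcomm φ hφ] at e3
    linear_combination -e3
  have h2 : ∑ r ∈ R, (deriv (Z r) 0 + deriv (Z (c * r)) 0) = 0 := by
    have g1 := hsum 1 (Fixes.one F)
    have g2 := hsum c hcF
    simp only [one_mul] at g1
    rw [Finset.sum_add_distrib, g1, g2, add_zero]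
  rw [Finset.sum_congr rfl (fun r hr => hA r (hR.1 r hr)), Finset.sum_const, nsmul_eq_mul] at h2
  have h4 : deriv (Z 1) 0 + deriv (Z c) 0 = 0 := by
    rcases mul_eq_zero.1 h2 with h | h
    · exact absurd h hR0
    · exact h
  intro σ hσ
  rw [hA σ hσ, h4]

/-- a subextension of index `m` -/
theorem index_pow (hSM : S_SUMM) (hn : n ≠ 0) (hab : IsAbelian F H') (hFH : F ≤ H) (hHH' : H ≤ H')
    (h1 : 𝔣 ≠ ⊤) (hart : IsArtin F H' 𝔣 art) (hgen : Generate F H' 𝔣 art Ps)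
    (hPQ : ∃ P ∈ Ps, ∃ Q ∈ Ps, ∀ i j : ℕ, 0 < i → 0 < j → nrm F P ^ i ≠ nrm F Q ^ j)
    (hS : ∀ P ∈ Ps, StarkPow ι F H' (𝔣 * P) art n) (hS0 : StarkPow ι F H 𝔣 art n)
    {m : ℕ} (hdeg : finrank ℚ H' = m * finrank ℚ H) : StarkPow ι F H' 𝔣 art (n * m) := by
  obtain ⟨Z, hZ, hz, hre, hun⟩ := pack0 hSM hn hab hFH hHH' h1 hart hgen hPQ hS hS0
  obtain ⟨R, hR, hRc⟩ := Pool.Agent.L7h40.SP.s_REPS F H H' hab hFH hHH'
  haveI := hab.fin
  have hH0 : 0 < finrank ℚ H := by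
    haveI : FiniteDimensional ℚ H :=
      FiniteDimensional.of_injective (IntermediateField.inclusion hHH').toLinearMap
        (IntermediateField.inclusion hHH').injective
    exact Module.finrank_pos
  have hm : R.card = m := by
    rw [hdeg] at hRc
    exact Nat.eq_of_mul_eq_mul_right hH0 hRc
  obtain ⟨e, hU, he⟩ : ∃ e : GQ → Qbar, (∀ φ, Fixes F φ → Un ι F H' (e φ)) ∧ ∀ φ, Fixes F φ →
      ∀ σ, Fixes F σ → ι (σ (e φ)) = Complex.exp (-2 * n * (deriv (Z σ) 0 - deriv (Z (φ * σ)) 0)) := by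
    classical
    choose! e h1 h2 using hun
    exact ⟨e, h1, h2⟩
  obtain ⟨Z0, ε₀, b1, b2, b3, b4, b5, b6⟩ := hS0
  have hε₀0 : ε₀ ≠ 0 := by
    rintro rfl
    have h7 := (b4 1 (fun _ _ => rfl)).2.2.2
    rw [map_zero, map_zero] at h7
    exact Complex.exp_ne_zero _ h7.symm
  have hU0 : Un ι F H' ε₀ := ⟨hHH' b1, hε₀0, b2, b3, b5, b6⟩
  have hRF : ∀ r ∈ R, Fixes F r := fun r hr => (hR.1 r hr).mono hFH
  set ε : Qbar := ε₀ * (∏ r ∈ R, e r) with hε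
  have hUε : Un ι F H' ε := (hU0.mul (Un.prod R _ fun r hr => hU r (hRF r hr)))
  -- the values
  have hval : ∀ σ, Fixes F σ → ι (σ ε) = Complex.exp (-2 * ((n * m : ℤ) : ℂ) * deriv (Z σ) 0) := by
    intro σ hσ
    have e1 : ∀ r ∈ R, ι (σ (e r)) =
        Complex.exp (-2 * n * (deriv (Z σ) 0 - deriv (Z (σ * r)) 0)) := by
      intro r hr
      rw [he r (hRF r hr) σ hσ,
        (congr_Z hab hZ (hσ.mul (hRF r hr)) ((hRF r hr).mul hσ) (agree_comm hab hσ (hRF r hr))).1]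
    obtain ⟨a1, a2⟩ := sum_reps Pool.Agent.L7h79.SP.s_SUM hab hFH hHH' hart hZ hR hσ
    have e3 := (isZeta_deriv (b4 σ hσ).1 a1 (fun n _ => rfl)).1
    rw [a2] at e3
    rw [hε, map_mul, map_mul, map_prod, map_prod, Finset.prod_congr rfl e1,
      ← Complex.exp_sum, (b4 σ hσ).2.2.2, ← Complex.exp_add]
    congr 1
    rw [e3, ← Finset.mul_sum, Finset.sum_sub_distrib, Finset.sum_const, nsmul_eq_mul, hm]
    push_cast
    ring
  exact ⟨Z, ε, hUε.1, hUε.2.2.1, hUε.2.2.2.1,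
    fun σ hσ => ⟨hZ σ hσ, hz σ hσ, hre σ hσ, hval σ hσ⟩, hUε.2.2.2.2.1, hUε.2.2.2.2.2⟩

/-- the square -/
theorem double_gen (hSM : S_SUMM) (hn : n ≠ 0) (hab : IsAbelian F H')
    (h1 : 𝔣 ≠ ⊤) (hart : IsArtin F H' 𝔣 art) (hgen : Generate F H' 𝔣 art Ps)
    (hPQ : ∃ P ∈ Ps, ∃ Q ∈ Ps, ∀ i j : ℕ, 0 < i → 0 < j → nrm F P ^ i ≠ nrm F Q ^ j)
    (hS : ∀ P ∈ Ps, StarkPow ι F H' (𝔣 * P) art n)
    (hw : ∃ w : Qbar →+* ℂ, (∃ x ∈ F, w x ≠ ι x) ∧ ∀ x ∈ F, (w x).im = 0)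
    {k : ℤ} (hk : k ≠ 0) (hS0 : StarkPow ι F F 𝔣 art k) : StarkPow ι F H' 𝔣 art (2 * n) := by
  obtain ⟨Z, c, hcF, hZ, hz, hre, hanti, hun⟩ := pack1 hSM hn hab h1 hart hgen hPQ hS hw hk hS0
  obtain ⟨e, hU, he⟩ := hun c hcF
  refine ⟨Z, e, hU.1, hU.2.2.1, hU.2.2.2.1, fun σ hσ => ⟨hZ σ hσ, hz σ hσ, hre σ hσ, ?_⟩,
    hU.2.2.2.2.1, hU.2.2.2.2.2⟩
  rw [he σ hσ]
  congr 1
  have e2 : deriv (Z (c * σ)) 0 = - deriv (Z σ) 0 := by
    linear_combination hanti σ hσ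
  rw [e2]
  push_cast
  ring

/-- an extension of even degree -/
theorem even_gen (hSM : S_SUMM) (hn : n ≠ 0) (hab : IsAbelian F H') (hFH : F ≤ H) (hHH' : H ≤ H')
    (hdeg : 2 * finrank ℚ H ∣ finrank ℚ H')
    (h1 : 𝔣 ≠ ⊤) (hart : IsArtin F H' 𝔣 art) (hgen : Generate F H' 𝔣 art Ps)
    (hPQ : ∃ P ∈ Ps, ∃ Q ∈ Ps, ∀ i j : ℕ, 0 < i → 0 < j → nrm F P ^ i ≠ nrm F Q ^ j)
    (hS : ∀ P ∈ Ps, StarkPow ι F H' (𝔣 * P) art n)
    (hw : ∃ w : Qbar →+* ℂ, (∃ x ∈ F, w x ≠ ι x) ∧ ∀ x ∈ F, (w x).im = 0)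
    {k : ℤ} (hk : k ≠ 0) (hS0 : StarkPow ι F F 𝔣 art k) : StarkPow ι F H 𝔣 art n := by
  obtain ⟨Z, c, hcF, hZ, hz, hre, hanti, hun⟩ := pack1 hSM hn hab h1 hart hgen hPQ hS hw hk hS0
  obtain ⟨R, hR, hRc⟩ := Pool.Agent.L7h40.SP.s_REPS F H H' hab hFH hHH'
  haveI := hab.fin
  have hH0 : 0 < finrank ℚ H := by
    haveI : FiniteDimensional ℚ H :=
      FiniteDimensional.of_injective (IntermediateField.inclusion hHH').toLinearMap
        (IntermediateField.inclusion hHH').injective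
    exact Module.finrank_pos
  obtain ⟨m, hm⟩ : ∃ m, R.card = 2 * m := by
    rw [← hRc] at hdeg
    exact Nat.dvd_of_mul_dvd_mul_right hH0 hdeg
  obtain ⟨e, hU, he⟩ : ∃ e : GQ → Qbar, (∀ φ, Fixes F φ → Un ι F H' (e φ)) ∧ ∀ φ, Fixes F φ →
      ∀ σ, Fixes F σ → ι (σ (e φ)) = Complex.exp (-2 * n * (deriv (Z σ) 0 - deriv (Z (φ * σ)) 0)) := by
    classical
    choose! e h1 h2 using hun
    exact ⟨e, h1, h2⟩
  have hRF : ∀ r ∈ R, Fixes F r := fun r hr => (hR.1 r hr).mono hFH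
  set ε : Qbar := e c ^ m * ∏ r ∈ R, (e r)⁻¹ with hε
  have hUε : Un ι F H' ε := ((hU c hcF).pow m).mul (Un.prod R _ fun r hr => (hU r (hRF r hr)).inv)
  -- the values
  have hval : ∀ σ, Fixes F σ →
      ι (σ ε) = Complex.exp (-2 * n * ∑ r ∈ R, deriv (Z (σ * r)) 0) := by
    intro σ hσ
    have e1 : ∀ r ∈ R, ι (σ (e r)⁻¹) =
        Complex.exp (2 * n * (deriv (Z σ) 0 - deriv (Z (σ * r)) 0)) := by
      intro r hr
      rw [map_inv₀, map_inv₀, he r (hRF r hr) σ hσ, ← Complex.exp_neg,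
        (congr_Z hab hZ (hσ.mul (hRF r hr)) ((hRF r hr).mul hσ) (agree_comm hab hσ (hRF r hr))).1]
      congr 1
      ring
    rw [hε, map_mul, map_mul, map_pow, map_pow, map_prod, map_prod, he c hcF σ hσ,
      Finset.prod_congr rfl e1, ← Complex.exp_nat_mul, ← Complex.exp_sum, ← Complex.exp_add]
    congr 1
    have e2 : deriv (Z (c * σ)) 0 = - deriv (Z σ) 0 := by
      linear_combination hanti σ hσ
    rw [e2, ← Finset.mul_sum, Finset.sum_sub_distrib, Finset.sum_const, nsmul_eq_mul, hm]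
    push_cast
    ring
  have hsr : ∀ σ, Fixes F σ → IsZeta (cnt F H 𝔣 art σ) (fun s => ∑ r ∈ R, Z (σ * r) s) ∧
      deriv (fun s => ∑ r ∈ R, Z (σ * r) s) 0 = ∑ r ∈ R, deriv (Z (σ * r)) 0 := fun σ hσ =>
    sum_reps Pool.Agent.L7h79.SP.s_SUM hab hFH hHH' hart hZ hR hσ
  have hεH : ε ∈ H := by
    apply mem_of_fixed
    intro g hg
    apply ι.injective
    have hgF := hg.mono hFH
    have e1 := hval g hgF
    have e2 := hval 1 (Fixes.one F)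
    rw [← (hsr g hgF).2] at e1
    rw [← (hsr 1 (Fixes.one F)).2] at e2
    have e3 := (isZeta_deriv (hsr g hgF).1 (hsr 1 (Fixes.one F)).1 (fun n _ =>
      cnt_congr F H 𝔣 art (g := g) (g' := 1) (fun x hx => hg x hx) n)).1
    rw [e1, e3, ← e2, AlgEquiv.one_apply]
  refine ⟨fun σ s => ∑ r ∈ R, Z (σ * r) s, ε, hεH, hUε.2.2.1, hUε.2.2.2.1, fun σ hσ => ?_,
    hUε.2.2.2.2.1, hUε.2.2.2.2.2⟩
  obtain ⟨a1, a2⟩ := hsr σ hσ
  refine ⟨a1, ?_, ?_, ?_⟩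
  · exact Finset.sum_eq_zero fun r hr => hz _ (hσ.mul (hRF r hr))
  · rw [a2, Complex.im_sum]
    exact Finset.sum_eq_zero fun r hr => hre _ (hσ.mul (hRF r hr))
  · rw [a2]
    exact hval σ hσ

end

end Pool.Agent.L7h5.SP.GB
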