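import Pool.Agent.L7h10.RQ.Defs

/-!
# Project SP: the Stark–Tate conjecture over real quadratic fields, for a smaller set of primes and
# for bigger Galois groups.  Statements of the parts.

`Qbar`, `GQ`, `Fixes`, `IsZeta`, `AbelianRoot`: `Pool.Agent.K4H33.SK.Defs`; `Sub`, `Ideals`, `nrm`,
`Cop`, `IsArtin`, `cnt`, `cntAll`: `Pool.Agent.K4H33.SK.Stmt`; `IsAbelian`, `StarkReal0`:
`Pool.Agent.L7h10.RQ.Defs`.  Useful lemmas: `Pool.Agent.K4H33.SK.{Gal, Zeta, Prime}` (`fixes_iff`,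
`mem_of_fixed`, `exists_lift`, `exists_conj`, `isZeta_unique`, `isZeta_deriv`, `cnt_congr`,
`cnt_prime`, `hasSum_shift`, `abelianRoot_div`, `comm_of_root`) and `Pool.Agent.L7h10.RQ.Add`
(`real_prime`).
-/

set_option autoImplicit false

namespace Pool.Agent.L7h5.SP
open NumberField Module IntermediateField
open Pool.Agent.K4H33.SK (Qbar GQ Fixes IsZeta AbelianRoot)
open Pool.Agent.K4H33.SK.Stmt (Sub Ideals nrm Cop IsArtin cnt cntAll)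
open Pool.Agent.L7h10.RQ (IsAbelian StarkReal0)

/-- `R` is a set of representatives of the automorphisms fixing `H` modulo those fixing `H'`. -/
def IsReps (H H' : Sub) (R : Finset GQ) : Prop :=
  (∀ r ∈ R, Fixes H r) ∧ ∀ g : GQ, Fixes H g → ∃! r : GQ, r ∈ R ∧ ∀ x ∈ H', g x = r x

/-- The prime ideals `P` in `Ps` are prime to `𝔣`, and their Frobenius automorphisms generate the Galois
group of `H'/F`. -/
def Generate (F H' : Sub) [NumberField F] (𝔣 : Ideals F) (art : Ideals F → GQ)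
    (Ps : Set (Ideals F)) : Prop :=
  (∀ P ∈ Ps, P.IsPrime ∧ P ≠ ⊥ ∧ Cop F P 𝔣) ∧
    ∀ V : Subgroup GQ, (∀ σ : GQ, Fixes H' σ → σ ∈ V) → (∀ P ∈ Ps, art P ∈ V) →
      ∀ σ : GQ, Fixes F σ → σ ∈ V

/-- The Galois group of `H/F` (abelian) contains a subgroup isomorphic to `(ℤ/ℓ)²`; that is, its Sylow
subgroup for `ℓ` is not cyclic. -/
def NonCyclic (F H : Sub) (ℓ : ℕ) : Prop :=
  ∃ a b : GQ, Fixes F a ∧ Fixes F b ∧ Fixes H (a ^ ℓ) ∧ Fixes H (b ^ ℓ) ∧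
    ∀ i j : ℤ, Fixes H (a ^ i * b ^ j) → (ℓ : ℤ) ∣ i ∧ (ℓ : ℤ) ∣ j

/-! ### Parts -/

/-- **REPS.** Representatives exist, `[H' : H]` of them.  (Restriction to `H'` identifies the
automorphisms fixing `H` modulo those fixing `H'` with the `H`-automorphisms of `H'`, a Galois extension of
`H`.) -/
def S_REPS : Prop :=
  ∀ (F H H' : Sub), IsAbelian F H' → F ≤ H → H ≤ H' →
    ∃ R : Finset GQ, IsReps H H' R ∧ R.card * finrank ℚ H = finrank ℚ H'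

/-- **SUM.** The ideals with Artin symbol `σ` on `H` are distributed over the `σ r` on `H'`.  (If
`art 𝔟 = σ` on `H` then `σ⁻¹ art 𝔟` fixes `H`; the sets are finite.) -/
def S_SUM : Prop :=
  ∀ (F H H' : Sub) [NumberField F] (𝔣 : Ideals F) (art : Ideals F → GQ), IsAbelian F H' → F ≤ H →
    H ≤ H' → (∀ 𝔟 : Ideals F, Cop F 𝔟 𝔣 → Fixes F (art 𝔟)) → ∀ R : Finset GQ, IsReps H H' R →
    ∀ σ : GQ, Fixes F σ → ∀ n : ℕ, cnt F H 𝔣 art σ n = ∑ r ∈ R, cnt F H' 𝔣 art (σ * r) n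

/-- **CONT.** Pure complex analysis.  `E(s) = 1 - a ^ (-g s)` and `E'(s) = 1 - b ^ (-g s)` have only
the common zero `0` (`a`, `b` multiplicatively independent), a simple zero of both; `L E = W` and
`L E' = W'` for `Re s > 1`, and `W`, `W'` vanish at `0`.  So `L` continues.  (Take `W / E` where
`E ≠ 0`, `W' / E'` where `E = 0` and `s ≠ 0`, and the quotient of the derivatives at `0`; `W E' = W' E`
by the identity theorem on the connected set `ℂ - {1}`; at `0` use `dslope`.) -/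
def S_CONT : Prop :=
  ∀ (L W W' : ℂ → ℂ) (a b g : ℕ), 2 ≤ a → 2 ≤ b → 0 < g →
    (∀ i j : ℕ, 0 < i → 0 < j → a ^ i ≠ b ^ j) →
    DifferentiableOn ℂ W {1}ᶜ → DifferentiableOn ℂ W' {1}ᶜ → W 0 = 0 → W' 0 = 0 →
    (∀ s : ℂ, 1 < s.re → (1 - (a : ℂ) ^ (-((g : ℂ) * s))) * L s = W s) →
    (∀ s : ℂ, 1 < s.re → (1 - (b : ℂ) ^ (-((g : ℂ) * s))) * L s = W' s) →
    ∃ Z : ℂ → ℂ, DifferentiableOn ℂ Z {1}ᶜ ∧ ∀ s : ℂ, 1 < s.re → Z s = L s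

/-- **DEDA.** The zeta function of a real quadratic field vanishes at `0`.  (`F` is the quadratic field
of an even primitive quadratic Dirichlet character `χ`, `ζ_F = ζ L(χ)`: `Pool.Agent.N880.QF.Dz`, and
`L(0, χ) = 0`; or the lemmas of `Pool.Agent.L7h10.RQ.Even`.) -/
def S_DEDA : Prop :=
  ∀ (F : Sub) [NumberField F], finrank ℚ F = 2 → (∀ x ∈ F, ∀ w : Qbar →+* ℂ, (w x).im = 0) →
    ∃ Z : ℂ → ℂ, IsZeta (cntAll F) Z ∧ Z 0 = 0

/-- **DEDB.** Removing the Euler factors of the primes dividing `𝔣`: each factor `1 - (N P) ^ (-s)`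
vanishes at `0`, and there is at least one.  (Induction over `𝔣` as in `RQ.Add.real_mul`, with
`cnt_prime` for `H = F` and the Artin map `fun _ => 1`, and `hasSum_shift`.) -/
def S_DEDB : Prop :=
  ∀ (F : Sub) [NumberField F], (∃ Z : ℂ → ℂ, IsZeta (cntAll F) Z ∧ Z 0 = 0) →
    ∀ (𝔣 : Ideals F) (art : Ideals F → GQ), 𝔣 ≠ ⊥ → 𝔣 ≠ ⊤ →
    (∀ 𝔟 : Ideals F, Cop F 𝔟 𝔣 → Fixes F (art 𝔟)) →
    ∃ Z : ℂ → ℂ, IsZeta (cnt F F 𝔣 art 1) Z ∧ Z 0 = 0 ∧ deriv Z 0 = 0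

/-- **TAU.** `F` is totally real, and there is a complex conjugation `c` for all the places of `H'`
above the second real place of `F`.  (Take `w₀` not equal to `ι` on `F`; `c` from `exists_conj w₀`; another
`w` is `w₀ ∘ g` with `g` fixing `F`, and `g`, `c` commute on `H'`.  There is `w₀` because `F` has
degree two.) -/
def S_TAU : Prop :=
  ∀ (ι : Qbar →+* ℂ) (F H' : Sub) [NumberField F], finrank ℚ F = 2 → IsAbelian F H' →
    (∀ x ∈ H', (ι x).im = 0) →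
    (∀ x ∈ F, ∀ w : Qbar →+* ℂ, (w x).im = 0) ∧ (∃ w : Qbar →+* ℂ, ∃ x ∈ F, w x ≠ ι x) ∧
    ∃ c : GQ, Fixes F c ∧ ∀ w : Qbar →+* ℂ, (∃ x ∈ F, w x ≠ ι x) →
      ∀ x ∈ H', w (c x) = (starRingEnd ℂ) (w x)

/-- **REL.** The partial zeta functions for `𝔣 P` from those for `𝔣`, at `0`.  (As in
`RQ.Add.real_prime`: `Z σ s - (N P) ^ (-s) Z ((art P)⁻¹ σ) s` is the zeta function for `𝔣 P`; then
`isZeta_unique`.) -/
def S_REL : Prop :=
  ∀ (F H' : Sub) [NumberField F] (𝔣 P : Ideals F) (art : Ideals F → GQ), F ≤ H' →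
    IsArtin F H' 𝔣 art → P.IsPrime → P ≠ ⊥ → Cop F P 𝔣 →
    ∀ (Z : GQ → ℂ → ℂ), (∀ σ : GQ, Fixes F σ → IsZeta (cnt F H' 𝔣 art σ) (Z σ)) →
    ∀ (σ : GQ) (ZP : ℂ → ℂ), Fixes F σ → IsZeta (cnt F H' (𝔣 * P) art σ) ZP →
      ZP 0 = Z σ 0 - Z ((art P)⁻¹ * σ) 0 ∧
      deriv ZP 0 = deriv (Z σ) 0 - deriv (Z ((art P)⁻¹ * σ)) 0 +
        (Real.log (nrm F P) : ℂ) * Z ((art P)⁻¹ * σ) 0

/-- **ZZ.** The continuation of the partial zeta functions for `𝔣` from those for `𝔣 P` and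
`𝔣 Q`.  (With `ρ = (art P)⁻¹`, `ρ ^ g` trivial on `H'`:
`(1 - (N P) ^ (-g s)) L(σ, s) = ∑_{i < g} (N P) ^ (-i s) Z_P (ρ ^ i σ) s` for `Re s > 1`, by
`cnt_prime` (telescoping); the right side vanishes at `0`; then `S_CONT`.  The series converge because
`cnt ≤ cntAll` and `cntAll` has a convergent series.) -/
def S_ZZ : Prop :=
  ∀ (F H' : Sub) [NumberField F] (𝔣 P Q : Ideals F) (art : Ideals F → GQ), IsAbelian F H' →
    IsArtin F H' 𝔣 art → 𝔣 ≠ ⊤ → P.IsPrime → P ≠ ⊥ → Cop F P 𝔣 → Q.IsPrime → Q ≠ ⊥ → Cop F Q 𝔣 →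
    (∀ i j : ℕ, 0 < i → 0 < j → nrm F P ^ i ≠ nrm F Q ^ j) →
    (∀ s : ℂ, 1 < s.re → LSeriesSummable (fun n => (cntAll F n : ℂ)) s) →
    (∃ ZP : GQ → ℂ → ℂ, ∀ σ : GQ, Fixes F σ →
      IsZeta (cnt F H' (𝔣 * P) art σ) (ZP σ) ∧ ZP σ 0 = 0) →
    (∃ ZQ : GQ → ℂ → ℂ, ∀ σ : GQ, Fixes F σ →
      IsZeta (cnt F H' (𝔣 * Q) art σ) (ZQ σ) ∧ ZQ σ 0 = 0) →
    ∃ Z : GQ → ℂ → ℂ, ∀ σ : GQ, Fixes F σ → IsZeta (cnt F H' 𝔣 art σ) (Z σ)

/-- **CHEB.** The Frobenius automorphisms of the primes outside a finite set generate the Galois group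
(Chebotarev's theorem: `Pool.Agent.W401.Cheb.AbsDefs.ChebK`, proved in the starting files, with
`Pool.Agent.L7h10.RQ.Fr` for the passage to `Qbar`; or any other way), and two of them have
multiplicatively independent norms (primes above different rational primes). -/
def S_CHEB : Prop :=
  ∀ (F H' : Sub) [NumberField F] (𝔣 : Ideals F) (art : Ideals F → GQ), IsAbelian F H' → 𝔣 ≠ ⊥ →
    IsArtin F H' 𝔣 art → ∀ B : Set (Ideals F), B.Finite →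
    Generate F H' 𝔣 art {P | P.IsPrime ∧ P ≠ ⊥ ∧ Cop F P 𝔣 ∧ P ∉ B} ∧
    ∃ P Q : Ideals F, (P.IsPrime ∧ P ≠ ⊥ ∧ Cop F P 𝔣 ∧ P ∉ B) ∧
      (Q.IsPrime ∧ Q ≠ ⊥ ∧ Cop F Q 𝔣 ∧ Q ∉ B) ∧
      ∀ i j : ℕ, 0 < i → 0 < j → nrm F P ^ i ≠ nrm F Q ^ j

/-- **TWO.** The real subfields of the fields of the `2 ^ k`-th roots of unity: for every `H` there is
a totally real subfield `T` of `Qbar`, normal and abelian over `ℚ`, generated by `ζ + ζ⁻¹` for a root of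
unity `ζ` of order `2 ^ k`, such that `[H T : H]` is even.  (`H ⊓ T_k` is constant for large `k`.) -/
def S_TWO : Prop :=
  ∀ (F H : Sub), IsAbelian F H → ∃ (k : ℕ) (ζ : Qbar), IsPrimitiveRoot ζ (2 ^ k) ∧
    IsAbelian F (H ⊔ ℚ⟮ζ + ζ⁻¹⟯) ∧ 2 * finrank ℚ H ∣ finrank ℚ ↥(H ⊔ ℚ⟮ζ + ζ⁻¹⟯)

/-- **MAIN.** The main theorem: the conjecture for `H` and `S` follows from its case for `H'` and
`S ∪ {P}`, `P ∈ Ps`. -/
def S_MAIN : Prop :=
  ∀ (ι : Qbar →+* ℂ) (F H H' : Sub) [NumberField F] (𝔣 : Ideals F) (art : Ideals F → GQ)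
    (Ps : Set (Ideals F)), finrank ℚ F = 2 → IsAbelian F H' → F ≤ H → H ≤ H' →
    2 * finrank ℚ H ∣ finrank ℚ H' → (∀ x ∈ H', (ι x).im = 0) → 𝔣 ≠ ⊥ → 𝔣 ≠ ⊤ →
    IsArtin F H' 𝔣 art → Generate F H' 𝔣 art Ps →
    (∃ P ∈ Ps, ∃ Q ∈ Ps, ∀ i j : ℕ, 0 < i → 0 < j → nrm F P ^ i ≠ nrm F Q ^ j) →
    (∀ P ∈ Ps, StarkReal0 ι F H' (𝔣 * P) art) → StarkReal0 ι F H 𝔣 art

/-! ### Bigger Galois groups -/

/-- The Stark–Tate conjecture up to the power `n`: as `StarkReal0`, with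
`σ ε = exp (-2 n ζ'(0, σ))`. -/
def StarkPow (ι : Qbar →+* ℂ) (F H : Sub) [NumberField F] (𝔣 : Ideals F)
    (art : Ideals F → GQ) (n : ℤ) : Prop :=
  ∃ (Z : GQ → ℂ → ℂ) (ε : Qbar), ε ∈ H ∧ IsIntegral ℤ ε ∧ IsIntegral ℤ ε⁻¹ ∧
    (∀ σ : GQ, Fixes F σ → IsZeta (cnt F H 𝔣 art σ) (Z σ) ∧ Z σ 0 = 0 ∧ (deriv (Z σ) 0).im = 0 ∧
      ι (σ ε) = Complex.exp (-2 * n * deriv (Z σ) 0)) ∧
    (∀ w : Qbar →+* ℂ, (∃ x ∈ F, w x ≠ ι x) → ‖w ε‖ = 1) ∧ AbelianRoot F 2 ε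

/-- **LINES.** If the Galois group contains `(ℤ/ℓ)²` (generated by `a`, `b`) and the conjecture
holds for the proper subfields of `H`, then it holds for `H` up to the power `ℓ`.  (Fields: `H_j` fixed by
`a b ^ j` (`0 ≤ j < ℓ`), `H_∞` fixed by `b`, `H_V` fixed by `a` and `b`; in the group ring
`ℓ = ∑ N(line) - N(V)`, so `ℓ cnt_H(σ) = ∑_j cnt_{H_j}(σ) - cnt_{H_V}(σ)` by `S_SUM` (hypothesis) with
explicit representatives.  Take `Z = (∑ Z_j - Z_V) / ℓ`, `ε = ∏ ε_j / ε_V`.) -/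
def S_LINES : Prop :=
  ∀ (ι : Qbar →+* ℂ) (F H : Sub) [NumberField F] (𝔣 : Ideals F) (art : Ideals F → GQ) (ℓ : ℕ),
    ℓ.Prime → IsAbelian F H → IsArtin F H 𝔣 art → NonCyclic F H ℓ →
    (∀ H₀ : Sub, F ≤ H₀ → H₀ < H → StarkReal0 ι F H₀ 𝔣 art) → StarkPow ι F H 𝔣 art ℓ

/-- **BEZ.** Two coprime powers give the conjecture (`isZeta_unique`, `isZeta_deriv`). -/
def S_BEZ : Prop :=
  ∀ (ι : Qbar →+* ℂ) (F H : Sub) [NumberField F] (𝔣 : Ideals F) (art : Ideals F → GQ) (m n : ℤ),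
    F ≤ H → IsCoprime m n → StarkPow ι F H 𝔣 art m → StarkPow ι F H 𝔣 art n →
      StarkReal0 ι F H 𝔣 art

/-- **SYL.** The conjecture for all abelian extensions of `F` in `H` with at most one non-cyclic Sylow
subgroup implies the conjecture for `H`.  (Induction over the degree.) -/
def S_SYL : Prop :=
  ∀ (ι : Qbar →+* ℂ) (F H : Sub) [NumberField F] (𝔣 : Ideals F) (art : Ideals F → GQ),
    IsAbelian F H → IsArtin F H 𝔣 art →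
    (∀ H₀ : Sub, F ≤ H₀ → H₀ ≤ H →
      (∀ ℓ ℓ' : ℕ, ℓ.Prime → ℓ'.Prime → NonCyclic F H₀ ℓ → NonCyclic F H₀ ℓ' → ℓ = ℓ') →
      StarkReal0 ι F H₀ 𝔣 art) → StarkReal0 ι F H 𝔣 art

end Pool.Agent.L7h5.SP
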