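import Pool.Agent.L7h5.SP.Stm
import Pool.Agent.L7h10.RQ.Add

/-! # Project SP: the group of units with the properties of Stark units -/

set_option autoImplicit false
set_option linter.all false

namespace Pool.Agent.L7h5.SP
open NumberField Module IntermediateField
open Pool.Agent.K4H33.SK (Qbar GQ Fixes IsZeta AbelianRoot fixes_iff mem_of_fixed Fixes.mul
  Fixes.inv Fixes.mono Fixes.one comm_of_root isZeta_unique isZeta_deriv cnt_congr)
open Pool.Agent.K4H33.SK.Stmt (Sub Ideals nrm Cop IsArtin cnt cntAll)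
open Pool.Agent.L7h10.RQ (IsAbelian StarkReal0)

/-- Units of `H'` with all properties of Stark units but the formula. -/
def Un (ι : Qbar →+* ℂ) (F H' : Sub) (e : Qbar) : Prop :=
  e ∈ H' ∧ e ≠ 0 ∧ IsIntegral ℤ e ∧ IsIntegral ℤ e⁻¹ ∧
    (∀ w : Qbar →+* ℂ, (∃ x ∈ F, w x ≠ ι x) → ‖w e‖ = 1) ∧ AbelianRoot F 2 e

lemma abRoot_iff {F : Sub} {e : Qbar} : AbelianRoot F 2 e ↔
    ∃ l : Qbar, l ^ 2 = e ∧ ∀ σ τ : GQ, Fixes F σ → Fixes F τ → σ (τ l) = τ (σ l) := by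
  constructor
  · intro h
    obtain ⟨l, hl⟩ := IsAlgClosed.exists_pow_nat_eq e (by norm_num : 0 < 2)
    exact ⟨l, hl, h l hl⟩
  · rintro ⟨l, hl, h⟩ m hm σ τ hσ hτ
    have h1 : m ^ 2 = l ^ 2 := by rw [hm, hl]
    rcases sq_eq_sq_iff_eq_or_eq_neg.1 h1 with h2 | h2
    · rw [h2]; exact h σ τ hσ hτ
    · rw [h2]; simp only [map_neg]; rw [h σ τ hσ hτ]

lemma abRoot_one (F : Sub) : AbelianRoot F 2 1 :=
  abRoot_iff.2 ⟨1, by norm_num, fun σ τ _ _ => by simp⟩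

lemma abRoot_mul {F : Sub} {x y : Qbar} (hx : AbelianRoot F 2 x) (hy : AbelianRoot F 2 y) :
    AbelianRoot F 2 (x * y) := by
  obtain ⟨l, hl, h⟩ := abRoot_iff.1 hx
  obtain ⟨m, hm, h'⟩ := abRoot_iff.1 hy
  refine abRoot_iff.2 ⟨l * m, by rw [mul_pow, hl, hm], fun σ τ hσ hτ => ?_⟩
  rw [map_mul, map_mul, map_mul, map_mul, h σ τ hσ hτ, h' σ τ hσ hτ]

lemma abRoot_inv {F : Sub} {x : Qbar} (hx : AbelianRoot F 2 x) : AbelianRoot F 2 x⁻¹ := by
  obtain ⟨l, hl, h⟩ := abRoot_iff.1 hx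
  refine abRoot_iff.2 ⟨l⁻¹, by rw [inv_pow, hl], fun σ τ hσ hτ => ?_⟩
  rw [map_inv₀, map_inv₀, map_inv₀, map_inv₀, h σ τ hσ hτ]

lemma abRoot_map {F : Sub} {x : Qbar} (hx : AbelianRoot F 2 x) {g : GQ} (hg : Fixes F g) :
    AbelianRoot F 2 (g x) := by
  obtain ⟨l, hl, h⟩ := abRoot_iff.1 hx
  refine abRoot_iff.2 ⟨g l, by rw [← map_pow, hl], fun σ τ hσ hτ => ?_⟩
  have h1 := h σ (τ * g) hσ (hτ.mul hg)
  have h2 := h g σ hg hσ
  simp only [AlgEquiv.mul_apply] at h1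
  rw [h1, h2]

variable {ι : Qbar →+* ℂ} {F H' : Sub}

lemma Un.one : Un ι F H' 1 :=
  ⟨H'.one_mem, one_ne_zero, isIntegral_one, by simpa using isIntegral_one,
    fun w _ => by simp, abRoot_one F⟩

lemma Un.mul {x y : Qbar} (hx : Un ι F H' x) (hy : Un ι F H' y) : Un ι F H' (x * y) := by
  obtain ⟨a1, a2, a3, a4, a5, a6⟩ := hx
  obtain ⟨b1, b2, b3, b4, b5, b6⟩ := hy
  refine ⟨H'.mul_mem a1 b1, mul_ne_zero a2 b2, a3.mul b3, ?_, fun w hw => ?_, abRoot_mul a6 b6⟩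
  · rw [mul_inv]; exact a4.mul b4
  · rw [map_mul, norm_mul, a5 w hw, b5 w hw, one_mul]

lemma Un.inv {x : Qbar} (hx : Un ι F H' x) : Un ι F H' x⁻¹ := by
  obtain ⟨a1, a2, a3, a4, a5, a6⟩ := hx
  refine ⟨H'.inv_mem a1, inv_ne_zero a2, a4, by rwa [inv_inv], fun w hw => ?_, abRoot_inv a6⟩
  rw [map_inv₀, norm_inv, a5 w hw, inv_one]

lemma Un.map (hab : IsAbelian F H') {x : Qbar} (hx : Un ι F H' x) {g : GQ} (hg : Fixes F g) :
    Un ι F H' (g x) := by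
  obtain ⟨a1, a2, a3, a4, a5, a6⟩ := hx
  refine ⟨hab.normal g hg x a1, by simpa using a2, ?_, ?_, fun w hw => ?_, abRoot_map a6 hg⟩
  · exact a3.map (g : Qbar →+* Qbar).toIntAlgHom
  · rw [← map_inv₀]
    exact a4.map (g : Qbar →+* Qbar).toIntAlgHom
  · have h8 : ‖(w.comp (g : Qbar →+* Qbar)) x‖ = 1 := by
      refine a5 _ ?_
      obtain ⟨y, hy, hy2⟩ := hw
      refine ⟨y, hy, ?_⟩
      have h9 : (w.comp (g : Qbar →+* Qbar)) y = w y := congrArg w (hg y hy)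
      rw [h9]
      exact hy2
    exact h8

lemma Un.prod {α : Type*} (s : Finset α) (f : α → Qbar) (h : ∀ a ∈ s, Un ι F H' (f a)) :
    Un ι F H' (∏ a ∈ s, f a) :=
  Finset.prod_induction f (Un ι F H') (fun _ _ => Un.mul) Un.one h

lemma Un.pow {x : Qbar} (hx : Un ι F H' x) (n : ℕ) : Un ι F H' (x ^ n) := by
  induction n with
  | zero => simpa using (Un.one : Un ι F H' 1)
  | succ n ih => rw [pow_succ]; exact ih.mul hx

lemma isZeta_sum {α : Type*} (R : Finset α) (c : α → ℕ → ℕ) (Z : α → ℂ → ℂ)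
    (h : ∀ r ∈ R, IsZeta (c r) (Z r)) :
    IsZeta (fun n => ∑ r ∈ R, c r n) (fun s => ∑ r ∈ R, Z r s) := by
  constructor
  · have := DifferentiableOn.sum (u := R) (A := Z) (s := ({1}ᶜ : Set ℂ)) (fun r hr => (h r hr).1)
    refine this.congr fun s _ => ?_
    simp
  · intro s hs
    have h1 : HasSum (fun n => ∑ r ∈ R, LSeries.term (fun n => (c r n : ℂ)) s n)
        (∑ r ∈ R, Z r s) := hasSum_sum fun r hr => (h r hr).2 s hs
    have h2 : (fun n => ∑ r ∈ R, LSeries.term (fun n => (c r n : ℂ)) s n) =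
        LSeries.term (fun n => ((∑ r ∈ R, c r n : ℕ) : ℂ)) s := by
      funext n
      rcases eq_or_ne n 0 with rfl | hn
      · simp
      · rw [LSeries.term_of_ne_zero hn]
        simp only [LSeries.term_of_ne_zero hn]
        push_cast
        rw [Finset.sum_div]
    rw [h2] at h1
    exact h1

lemma deriv_sum_zero {α : Type*} (R : Finset α) (c : α → ℕ → ℕ) (Z : α → ℂ → ℂ)
    (h : ∀ r ∈ R, IsZeta (c r) (Z r)) :
    deriv (fun s => ∑ r ∈ R, Z r s) 0 = ∑ r ∈ R, deriv (Z r) 0 := by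
  have hn : ({1}ᶜ : Set ℂ) ∈ nhds (0 : ℂ) := isOpen_compl_singleton.mem_nhds (by simp)
  have := deriv_fun_sum (u := R) (A := Z) (x := (0 : ℂ))
    (fun r hr => ((h r hr).1.differentiableAt hn))
  exact this

end Pool.Agent.L7h5.SP
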